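import Pool.Agent.L5helper41.GR.Mod
import Mathlib

/-!
Actions of groups of the genus of `SL(n, ℤ)` on modules and on residually nilpotent groups with
fewer than `n` generators.
-/

namespace Pool.Agent.L5helper41.GR

open Matrix

section genmod

variable {n : ℕ} {Λ : Type} [Group Λ]

/-- **Part 1, for modules** -/
theorem trivial_module (hn : 3 ≤ n) (hfg : Group.FG Λ) (hq : FQ n Λ) {R : Type} [CommRing R]
    {M : Type} [AddCommGroup M] [Module R M] (s : Finset M) (hs : s.card < n)
    (hspan : Submodule.span R (s : Set M) = ⊤) (ρ : Λ →* Module.End R M) (g : Λ) (x : M) :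
    ρ g x = x := by
  classical
  obtain ⟨T, hT⟩ := Group.fg_def.1 hfg
  have hex : ∀ (h : Λ) (e : M), ∃ f : M → R, ∑ a ∈ s, f a • a = ρ h e := by
    intro h e
    have h1 : ρ h e ∈ Submodule.span R (s : Set M) := by rw [hspan]; trivial
    obtain ⟨f, _, hf⟩ := Submodule.mem_span_finset.1 h1
    exact ⟨f, hf⟩
  choose c hc using hex
  let S0 : Finset R := T.biUnion fun t => s.biUnion fun e => s.biUnion fun a =>
    {c t e a, c t⁻¹ e a}
  let A : Subalgebra ℤ R := Algebra.adjoin ℤ (S0 : Set R)
  have hA : Algebra.FiniteType ℤ A := by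
    rw [← Subalgebra.fg_iff_finiteType]
    exact ⟨S0, rfl⟩
  let M0 : Submodule A M := Submodule.span A (s : Set M)
  have hgen : ∀ h : Λ, (∀ e ∈ s, ρ h e ∈ M0) → ∀ y ∈ M0, ρ h y ∈ M0 := by
    intro h h1 y hy
    induction hy using Submodule.span_induction with
    | mem z hz => exact h1 z hz
    | zero => rw [map_zero]; exact M0.zero_mem
    | add y z _ _ h1 h2 => rw [map_add]; exact M0.add_mem h1 h2
    | smul a z _ h1 =>
      have : ρ h (a • z) = a • ρ h z := (ρ h).map_smul (a : R) z
      rw [this]
      exact M0.smul_mem _ h1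
  have hco : ∀ (h : Λ) (e : M), (∀ a ∈ s, c h e a ∈ A) → ρ h e ∈ M0 := by
    intro h e h1
    rw [← hc h e]
    apply M0.sum_mem
    intro a ha
    have : c h e a • a = (⟨c h e a, h1 a ha⟩ : A) • a := rfl
    rw [this]
    exact M0.smul_mem _ (Submodule.subset_span ha)
  have hst : ∀ h : Λ, ∀ y ∈ M0, ρ h y ∈ M0 := by
    intro h
    have hmem : h ∈ Subgroup.closure (T : Set Λ) := by rw [hT]; trivial
    induction hmem using Subgroup.closure_induction_left with
    | one => intro y hy; rw [map_one]; exact hy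
    | mul_left t ht h _ ih =>
      intro y hy
      rw [map_mul]
      refine hgen t (fun e he => hco t e (fun a ha => Algebra.subset_adjoin ?_)) _ (ih y hy)
      simp only [S0, Finset.coe_biUnion, Set.mem_iUnion]
      exact ⟨t, ht, e, he, a, ha, by simp⟩
    | inv_mul_cancel t ht h _ ih =>
      intro y hy
      rw [map_mul]
      refine hgen t⁻¹ (fun e he => hco t⁻¹ e (fun a ha => Algebra.subset_adjoin ?_)) _ (ih y hy)
      simp only [S0, Finset.coe_biUnion, Set.mem_iUnion]
      exact ⟨t, ht, e, he, a, ha, by simp⟩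
  let ρ0 : Λ →* Module.End A M0 :=
    { toFun := fun h => LinearMap.restrict ((ρ h).restrictScalars A) (hst h)
      map_one' := by
        apply LinearMap.ext
        intro y
        apply Subtype.ext
        show ρ 1 (y : M) = y
        rw [map_one]
        rfl
      map_mul' := by
        intro a b
        apply LinearMap.ext
        intro y
        apply Subtype.ext
        show ρ (a * b) (y : M) = ρ a (ρ b y)
        rw [map_mul]
        rfl }
  let s0 : Finset M0 := s.attach.image fun e => ⟨e.1, Submodule.subset_span e.2⟩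
  have hs0 : s0.card < n := by
    have h1 : s0.card ≤ s.attach.card := Finset.card_image_le
    rw [Finset.card_attach] at h1
    omega
  have hspan0 : Submodule.span A (s0 : Set M0) = ⊤ := by
    apply Submodule.map_injective_of_injective M0.injective_subtype
    rw [Submodule.map_span, Submodule.map_top, Submodule.range_subtype]
    show _ = Submodule.span A (s : Set M)
    congr 1
    ext y
    constructor
    · rintro ⟨z, hz, rfl⟩
      obtain ⟨e, _, rfl⟩ := Finset.mem_image.1 (Finset.mem_coe.1 hz)
      exact e.2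
    · intro hy
      exact ⟨⟨y, Submodule.subset_span hy⟩,
        Finset.mem_coe.2 (Finset.mem_image.2 ⟨⟨y, hy⟩, Finset.mem_attach _ _, rfl⟩), rfl⟩
  have h0 := mod_ft hn hfg hq s0 hs0 hspan0 ρ0 g
  have hx : x ∈ Submodule.span R (s : Set M) := by rw [hspan]; trivial
  induction hx using Submodule.span_induction with
  | mem z hz => exact congrArg Subtype.val (h0 ⟨z, Submodule.subset_span hz⟩)
  | zero => rw [map_zero]
  | add y z _ _ h1 h2 => rw [map_add, h1, h2]
  | smul a z _ h1 => rw [map_smul, h1]

end genmod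

section grp

open scoped commutatorElement

variable {n : ℕ} {Λ : Type} [Group Λ] {G : Type} [Group G]

abbrev L (G : Type) [Group G] (k : ℕ) : Subgroup G := (⊤ : Subgroup G).lowerCentralSeries k

lemma L_anti {i j : ℕ} (h : i ≤ j) : L G j ≤ L G i := Subgroup.lowerCentralSeries_antitone _ h

lemma cen {i m : ℕ} (h : m ≤ i + 1) (x : G) (hx : x ∈ L G i) :
    (QuotientGroup.mk' (L G m) x) ∈ Subgroup.center (G ⧸ L G m) := by
  rw [Subgroup.mem_center_iff]
  intro y
  obtain ⟨y, rfl⟩ := QuotientGroup.mk'_surjective (L G m) y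
  rw [← map_mul, ← map_mul]
  apply Eq.symm
  apply QuotientGroup.eq.2
  have h1 : ⁅x⁻¹, y⁻¹⁆ ∈ L G (i + 1) :=
    Subgroup.commutator_mem_commutator (Subgroup.inv_mem _ hx) (Subgroup.mem_top _)
  have h2 : (x * y)⁻¹ * (y * x) = (⁅x⁻¹, y⁻¹⁆)⁻¹ := by
    rw [commutatorElement_def]; group
  rw [h2]
  exact Subgroup.inv_mem _ (L_anti h h1)

lemma mk_eq_iff {m : ℕ} (x y : G) :
    QuotientGroup.mk' (L G m) x = QuotientGroup.mk' (L G m) y ↔ x * y⁻¹ ∈ L G m := by
  constructor
  · intro h
    have h1 : QuotientGroup.mk' (L G m) (x * y⁻¹) = 1 := by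
      rw [map_mul, map_inv, h, mul_inv_cancel]
    rwa [← MonoidHom.mem_ker, QuotientGroup.ker_mk'] at h1
  · intro h
    have h1 : QuotientGroup.mk' (L G m) (x * y⁻¹) = 1 := by
      rwa [← MonoidHom.mem_ker, QuotientGroup.ker_mk']
    rwa [map_mul, map_inv, mul_inv_eq_one] at h1

lemma comm_central {H : Type} [Group H] (c d Y Z : H) (hc : ∀ g : H, g * c = c * g)
    (hd : ∀ g : H, g * d = d * g) : ⁅c * Y, d * Z⁆ = ⁅Y, Z⁆ := by
  have A : ∀ X : H, c * Y * X * (c * Y)⁻¹ = Y * X * Y⁻¹ := by
    intro X
    calc c * Y * X * (c * Y)⁻¹ = c * (Y * X * Y⁻¹) * c⁻¹ := by group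
      _ = _ := by rw [← hc, mul_inv_cancel_right]
  calc ⁅c * Y, d * Z⁆ = c * Y * (d * Z) * (c * Y)⁻¹ * (d * Z)⁻¹ := by rw [commutatorElement_def]
    _ = Y * (d * Z) * Y⁻¹ * (d * Z)⁻¹ := by rw [A]
    _ = (Y * d) * (Z * Y⁻¹ * Z⁻¹) * d⁻¹ := by group
    _ = (d * Y) * (Z * Y⁻¹ * Z⁻¹) * d⁻¹ := by rw [hd Y]
    _ = d * (Y * Z * Y⁻¹ * Z⁻¹) * d⁻¹ := by group
    _ = Y * Z * Y⁻¹ * Z⁻¹ := by rw [← hd, mul_inv_cancel_right]
    _ = ⁅Y, Z⁆ := by rw [commutatorElement_def]

/-- an automorphism that is trivial modulo `L k` with `k ≥ 1` is trivial on `L j / L (j + 1)` for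
`j ≤ k` -/
lemma gr (α : G →* G) (k : ℕ) (hk : 1 ≤ k) (hα : ∀ x, α x * x⁻¹ ∈ L G k) (j : ℕ) :
    j ≤ k → ∀ y ∈ L G j, α y * y⁻¹ ∈ L G (j + 1) := by
  induction j with
  | zero =>
    intro _ y _
    exact L_anti hk (hα y)
  | succ j ih =>
    intro hj y hy
    let q := QuotientGroup.mk' (L G (j + 1 + 1))
    have hle : L G (j + 1) ≤ MonoidHom.eqLocus (q.comp α) q := by
      show ⁅L G j, (⊤ : Subgroup G)⁆ ≤ _
      rw [Subgroup.commutator_le]
      intro y hy z _
      show q (α ⁅y, z⁆) = q ⁅y, z⁆
      have h1 : q (α y * y⁻¹) ∈ Subgroup.center _ := cen le_rfl _ (ih (by omega) y hy)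
      have h2 : q (α z * z⁻¹) ∈ Subgroup.center _ := cen (by omega) _ (hα z)
      have h3 : q (α y) = q (α y * y⁻¹) * q y := by rw [← map_mul, inv_mul_cancel_right]
      have h4 : q (α z) = q (α z * z⁻¹) * q z := by rw [← map_mul, inv_mul_cancel_right]
      rw [map_commutatorElement, map_commutatorElement, map_commutatorElement, h3, h4]
      generalize q (α y * y⁻¹) = c at h1
      generalize q (α z * z⁻¹) = d at h2
      rw [Subgroup.mem_center_iff] at h1 h2
      exact comm_central c d _ _ h1 h2
    have h5 := hle hy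
    exact (mk_eq_iff _ _).1 h5

theorem hom_comm' (hn : 3 ≤ n) (hfg : Group.FG Λ) (hq : FQ n Λ) {C : Type} [inst : Group C]
    (hC : ∀ a b : C, a * b = b * a) (f : Λ →* C) : f = 1 := by
  let _ : CommGroup C := { inst with mul_comm := hC }
  exact hom_comm hn hfg hq f

/-- **Part 1, for groups**: a group of the genus of `SL(n, ℤ)` acts trivially on every residually
nilpotent group with fewer than `n` generators -/
theorem trivial_aut (hn : 3 ≤ n) (hfg : Group.FG Λ) (hq : FQ n Λ) (s : Finset G) (hs : s.card < n)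
    (hgen : Subgroup.closure (s : Set G) = ⊤) (hres : ∀ x : G, (∀ k, x ∈ L G k) → x = 1)
    (φ : Λ →* MulAut G) : φ = 1 := by
  classical
  -- the action on the abelianization
  let ab : Λ → Module.End ℤ (Additive (Abelianization G)) := fun h =>
    (MonoidHom.toAdditive (Abelianization.map (φ h).toMonoidHom)).toIntLinearMap
  have hab : ∀ h x, ab h (Additive.ofMul (Abelianization.of x)) =
    Additive.ofMul (Abelianization.of (φ h x)) := fun h x => rfl
  have hsur : ∀ v : Additive (Abelianization G), ∃ x : G, v = Additive.ofMul (Abelianization.of x) := by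
    intro v
    obtain ⟨x, hx⟩ := QuotientGroup.mk_surjective (Additive.toMul v)
    exact ⟨x, (congrArg Additive.ofMul hx).symm⟩
  let ρ : Λ →* Module.End ℤ (Additive (Abelianization G)) :=
    { toFun := ab
      map_one' := by
        apply LinearMap.ext
        intro v
        obtain ⟨x, rfl⟩ := hsur v
        rw [hab, map_one]
        rfl
      map_mul' := by
        intro a b
        apply LinearMap.ext
        intro v
        obtain ⟨x, rfl⟩ := hsur v
        rw [Module.End.mul_apply, hab, hab, hab, map_mul]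
        rfl }
  let t : Finset (Additive (Abelianization G)) := s.image fun x => Additive.ofMul (Abelianization.of x)
  have ht : t.card < n := Finset.card_image_le.trans_lt hs
  have htop : Submodule.span ℤ (t : Set (Additive (Abelianization G))) = ⊤ := by
    rw [eq_top_iff]
    rintro v -
    obtain ⟨x, rfl⟩ := hsur v
    have hx : x ∈ Subgroup.closure (s : Set G) := by rw [hgen]; trivial
    induction hx using Subgroup.closure_induction with
    | mem z hz =>
      exact Submodule.subset_span (Finset.mem_coe.2 (Finset.mem_image_of_mem _ hz))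
    | one => rw [map_one]; exact Submodule.zero_mem _
    | mul y z _ _ h1 h2 => rw [map_mul]; exact Submodule.add_mem _ h1 h2
    | inv y _ h1 => rw [map_inv]; exact Submodule.neg_mem _ h1
  have h1 : ∀ h x, φ h x * x⁻¹ ∈ L G 1 := by
    intro h x
    have h2 := trivial_module hn hfg hq t ht htop ρ h (Additive.ofMul (Abelianization.of x))
    have h3 : Abelianization.of (φ h x) = Abelianization.of x := by
      have h4 : ab h (Additive.ofMul (Abelianization.of x)) = Additive.ofMul (Abelianization.of x) := h2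
      rw [hab] at h4
      exact Additive.ofMul.injective h4
    have h5 : Abelianization.of (φ h x * x⁻¹) = 1 := by rw [map_mul, map_inv, h3, mul_inv_cancel]
    rwa [← MonoidHom.mem_ker, Abelianization.ker_of] at h5
  have hk : ∀ k : ℕ, ∀ h x, φ h x * x⁻¹ ∈ L G (k + 1) := by
    intro k
    induction k with
    | zero => exact h1
    | succ k ih =>
      intro h x
      let q := QuotientGroup.mk' (L G (k + 1 + 1))
      have hc : ∀ h, q (φ h x * x⁻¹) ∈ Subgroup.center _ := fun h => cen le_rfl _ (ih h x)
      let f : Λ →* Subgroup.center (G ⧸ L G (k + 1 + 1)) :=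
        MonoidHom.mk' (fun h => ⟨q (φ h x * x⁻¹), hc h⟩) (by
          intro a b
          apply Subtype.ext
          show q (φ (a * b) x * x⁻¹) = q (φ a x * x⁻¹) * q (φ b x * x⁻¹)
          have h2 : φ (a * b) x * x⁻¹ = φ a (φ b x * x⁻¹) * (φ a x * x⁻¹) := by
            rw [map_mul, MulAut.mul_apply, map_mul, map_inv]
            group
          have h3 : q (φ a (φ b x * x⁻¹)) = q (φ b x * x⁻¹) :=
            (mk_eq_iff _ _).2 (gr (φ a).toMonoidHom (k + 1) (by omega) (fun y => ih a y) (k + 1)
              le_rfl _ (ih b x))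
          rw [h2, map_mul q, h3]
          exact Subgroup.mem_center_iff.1 (hc a) _)
      have hf : f = 1 := hom_comm' hn hfg hq (fun a b => by
        apply Subtype.ext
        exact Subgroup.mem_center_iff.1 b.2 _) f
      have h4 : q (φ h x * x⁻¹) = 1 := by
        have : f h = 1 := by rw [hf]; rfl
        exact congrArg Subtype.val this
      rwa [← MonoidHom.mem_ker, QuotientGroup.ker_mk'] at h4
  ext h x
  have h2 : φ h x * x⁻¹ = 1 := by
    apply hres
    intro k
    cases k with
    | zero => trivial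
    | succ k => exact hk k h x
  rw [mul_inv_eq_one] at h2
  exact h2

end grp

end Pool.Agent.L5helper41.GR
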