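import Pool.Agent.L5helper41.GR.Small2
import Mathlib

/-!
Algebraicity of the characteristic polynomials in characteristic zero.
-/

namespace Pool.Agent.L5helper41.GR

open Polynomial

section gen

/-- generic lying over for `ℤ[c] ⊆ A` -/
lemma gen {A : Type} [CommRing A] [IsDomain A] [Algebra.FiniteType ℤ A] (c : A)
    (hc : ∀ P : ℤ[X], aeval c P = 0 → P = 0) :
    ∃ f : ℤ[X], f ≠ 0 ∧ ∀ q : Ideal ℤ[X], q.IsPrime → f ∉ q →
      ∃ Q : Ideal A, Q.IsPrime ∧ ∀ P : ℤ[X], aeval c P ∈ Q ↔ P ∈ q := by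
  let φ : ℤ[X] →+* A := (aeval c : ℤ[X] →ₐ[ℤ] A).toRingHom
  have hft : φ.FiniteType := by
    apply RingHom.FiniteType.of_comp_finiteType (f := algebraMap ℤ ℤ[X])
    have h1 : φ.comp (algebraMap ℤ ℤ[X]) = algebraMap ℤ A := Subsingleton.elim _ _
    rw [h1]
    exact RingHom.finiteType_algebraMap.2 inferInstance
  have hfp : φ.FinitePresentation := RingHom.FinitePresentation.of_finiteType.1 hft
  obtain ⟨S, hS⟩ := PrimeSpectrum.exists_constructibleSetData_iff.2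
    (PrimeSpectrum.isConstructible_range_comap hfp)
  let x0 : PrimeSpectrum ℤ[X] := ⟨⊥, Ideal.isPrime_bot⟩
  have hx0 : x0 ∈ Set.range (PrimeSpectrum.comap φ) := by
    refine ⟨⟨⊥, Ideal.isPrime_bot⟩, ?_⟩
    apply PrimeSpectrum.ext
    show Ideal.comap φ ⊥ = ⊥
    rw [eq_bot_iff]
    intro P hP
    exact hc P hP
  rw [← hS] at hx0
  unfold PrimeSpectrum.ConstructibleSetData.toSet at hx0
  rw [Set.mem_iUnion₂] at hx0
  obtain ⟨C, hC, h1, h2⟩ := hx0
  have hg : ∀ y ∈ Set.range C.g, y = 0 := fun y hy => h1 hy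
  have hf0 : C.f ≠ 0 := fun h => h2 (by
    intro y hy
    rw [Set.mem_singleton_iff.1 hy, h]
    exact Ideal.zero_mem _)
  refine ⟨C.f, hf0, ?_⟩
  intro q hq hfq
  have h3 : (⟨q, hq⟩ : PrimeSpectrum ℤ[X]) ∈ S.toSet := by
    unfold PrimeSpectrum.ConstructibleSetData.toSet
    rw [Set.mem_iUnion₂]
    refine ⟨C, hC, ?_, ?_⟩
    · intro y hy
      rw [hg y hy]
      exact Ideal.zero_mem _
    · intro h
      exact hfq (h rfl)
  rw [hS] at h3
  obtain ⟨Q, hQ⟩ := h3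
  refine ⟨Q.asIdeal, Q.isPrime, ?_⟩
  intro P
  have h4 : Ideal.comap φ Q.asIdeal = q := congrArg PrimeSpectrum.asIdeal hQ
  rw [← h4]
  rfl

lemma alg_of_mod {A : Type} [CommRing A] [IsDomain A] [Algebra.FiniteType ℤ A] (c : A)
    (h : ∀ p : ℕ, p.Prime → ∀ Q : Ideal A, Q.IsPrime → (p : A) ∈ Q →
      ∃ G : ℤ[X], G.Monic ∧ aeval c G ∈ Q) : ∃ P : ℤ[X], P ≠ 0 ∧ aeval c P = 0 := by
  by_contra hcon
  push Not at hcon
  obtain ⟨f, hf0, hf⟩ := gen c (fun P hP => by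
    by_contra hne
    exact hcon P hne hP)
  obtain ⟨i, hi⟩ : ∃ i, f.coeff i ≠ 0 := by
    by_contra h1
    push Not at h1
    exact hf0 (Polynomial.ext h1)
  obtain ⟨p, hpl, hp⟩ := Nat.exists_infinite_primes ((f.coeff i).natAbs + 1)
  have hpZ : Prime (p : ℤ) := Nat.prime_iff_prime_int.1 hp
  let q0 : Ideal ℤ := Ideal.span {(p : ℤ)}
  have hq0 : q0.IsPrime := (Ideal.span_singleton_prime hpZ.ne_zero).2 hpZ
  let q : Ideal ℤ[X] := q0.map C
  have hq : q.IsPrime := Ideal.isPrime_map_C_of_isPrime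
  have hfq : f ∉ q := by
    intro h1
    have h2 := Ideal.mem_map_C_iff.1 h1 i
    have h3 : (p : ℤ) ∣ f.coeff i := Ideal.mem_span_singleton.1 h2
    have h4 := Int.natAbs_dvd_natAbs.2 h3
    rw [Int.natAbs_natCast] at h4
    have h5 := Nat.le_of_dvd (Int.natAbs_pos.2 hi) h4
    omega
  obtain ⟨Q, hQ, hQq⟩ := hf q hq hfq
  have hpQ : (p : A) ∈ Q := by
    have h1 : aeval c (C (p : ℤ)) ∈ Q := (hQq _).2 (Ideal.mem_map_of_mem _
      (Ideal.mem_span_singleton_self _))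
    simpa using h1
  obtain ⟨G, hG, hGQ⟩ := h p hp Q hQ hpQ
  have h1 := Ideal.mem_map_C_iff.1 ((hQq G).1 hGQ) G.natDegree
  rw [Polynomial.Monic.coeff_natDegree hG] at h1
  exact hq0.ne_top ((Ideal.eq_top_iff_one _).2 h1)

end gen

section int

variable {ι : Type} [Fintype ι] [DecidableEq ι]

lemma int_coeff {K : Type} [Field K] [IsAlgClosed K] (a : Matrix ι ι K) (M : ℕ) (hM : 1 ≤ M)
    (ha : a ^ M = 1) (i : ℕ) : IsIntegral ℤ (a.charpoly.coeff i) := by
  have h1 : a.charpoly.Splits := IsAlgClosed.splits _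
  have h2 := h1.eq_prod_roots_of_monic a.charpoly_monic
  have hroot : ∀ μ ∈ a.charpoly.roots, IsIntegral ℤ μ := by
    intro μ hμ
    have h3 : μ ∈ spectrum K a := Matrix.mem_spectrum_of_isRoot_charpoly (isRoot_of_mem_roots hμ)
    have h4 : μ ^ M = 1 := by
      rcases subsingleton_or_nontrivial (Matrix ι ι K) with hs | hs
      · rw [spectrum.of_subsingleton] at h3
        exact absurd h3 (Set.notMem_empty _)
      · have h5 := spectrum.pow_mem_pow a M h3
        rw [ha, spectrum.one_eq] at h5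
        exact h5
    refine ⟨X ^ M - 1, monic_X_pow_sub_C 1 (by omega), ?_⟩
    simp [h4]
  let S := integralClosure ℤ K
  have h3 : a.charpoly ∈ lifts (algebraMap S K) := by
    rw [h2]
    apply Subsemiring.multiset_prod_mem
    intro g hg
    obtain ⟨μ, hμ, rfl⟩ := Multiset.mem_map.1 hg
    have : X - C μ = (X - C (⟨μ, hroot μ hμ⟩ : S)).map (algebraMap S K) := by
      rw [Polynomial.map_sub, map_X, map_C]
      rfl
    rw [this]
    exact ⟨_, rfl⟩
  obtain ⟨s, hs⟩ := (lifts_iff_coeff_lifts _).1 h3 i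
  rw [← hs]
  exact s.2

end int

end Pool.Agent.L5helper41.GR
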