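import Mathlib

set_option autoImplicit false

/-!
Families of unipotent endomorphisms with the relations of the upper unitriangular elementary
matrices: the top commutator is trivial if the dimension is smaller than `n`.
-/

namespace Pool.Agent.L5helper41.GR

open Module

universe u₁ u₂

variable {K : Type u₁} [Field K]

/-- relations of the elementary matrices `e_ij`, `i < j`, and unipotency -/
structure UTri {V : Type u₂} [AddCommGroup V] [Module K V] {n : ℕ}
    (u : Fin n → Fin n → Module.End K V) : Prop where
  nil : ∀ i j, i < j → IsNilpotent (u i j - 1)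
  comm : ∀ i j k l, i < j → k < l → j ≠ k → i ≠ l → u i j * u k l = u k l * u i j
  ste : ∀ i j l, i < j → j < l → u i j * u j l = u i l * u j l * u i j

/-- a nonzero fixed vector of a unipotent map in an invariant subspace -/
lemma exists_fixed {V : Type u₂} [AddCommGroup V] [Module K V] {W : Submodule K V} (hW : W ≠ ⊥)
    (u : Module.End K V) (hu : IsNilpotent (u - 1)) (hi : ∀ w ∈ W, u w ∈ W) :
    ∃ w ∈ W, w ≠ 0 ∧ u w = w := by
  obtain ⟨w, hw, hw0⟩ := Submodule.exists_mem_ne_zero_of_ne_bot hW
  obtain ⟨m, hm⟩ := hu
  have hex : ∃ m : ℕ, ((u - 1) ^ m) w = 0 := ⟨m, by rw [hm]; rfl⟩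
  classical
  have hk := Nat.find_spec hex
  have hmin := fun j => Nat.find_min hex (m := j)
  set k := Nat.find hex with hkdef
  have hk0 : k ≠ 0 := by
    intro h
    rw [h, pow_zero] at hk
    exact hw0 hk
  obtain ⟨j, hj⟩ : ∃ j, k = j + 1 := ⟨k - 1, by omega⟩
  have hmem : ∀ r : ℕ, ((u - 1) ^ r) w ∈ W := by
    intro r
    induction r with
    | zero => rw [pow_zero]; exact hw
    | succ r ih =>
      rw [pow_succ', Module.End.mul_apply]
      exact W.sub_mem (hi _ ih) ih
  refine ⟨((u - 1) ^ j) w, hmem j, hmin j (by omega), ?_⟩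
  rw [hj, pow_succ', Module.End.mul_apply] at hk
  exact sub_eq_zero.1 hk

theorem UTri.exists_fixed_vector {V : Type u₂} [AddCommGroup V] [Module K V]
    [FiniteDimensional K V] [Nontrivial V] {n : ℕ} {u : Fin n → Fin n → Module.End K V}
    (h : UTri u) : ∃ v : V, v ≠ 0 ∧ ∀ i j, i < j → u i j v = v := by
  let S : Set (Submodule K V) := {W | W ≠ ⊥ ∧ ∀ i j, i < j → ∀ w ∈ W, u i j w ∈ W}
  have hS : S.Nonempty := ⟨⊤, ⟨top_ne_bot, fun _ _ _ _ _ => Submodule.mem_top⟩⟩
  have hwf : WellFounded ((· < ·) : Submodule K V → Submodule K V → Prop) := wellFounded_lt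
  obtain ⟨W, ⟨hW0, hWi⟩, hmin⟩ := hwf.has_min S hS
  have key : ∀ s : ℕ, ∀ i j : Fin n, i < j → n ≤ (j : ℕ) - i + s → ∀ w ∈ W, u i j w = w := by
    intro s
    induction s with
    | zero =>
      intro i j hij hn
      have := j.2
      have : (i : ℕ) < j := hij
      omega
    | succ s ih =>
      intro i j hij hn
      have hc : ∀ k l : Fin n, k < l → ∀ w ∈ W, u i j (u k l w) = u k l (u i j w) := by
        intro k l hkl w hw
        have hij' : (i : ℕ) < j := hij
        have hkl' : (k : ℕ) < l := hkl
        by_cases h1 : j = k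
        · subst h1
          have e := LinearMap.congr_fun (h.ste i j l hij hkl) w
          simp only [Module.End.mul_apply] at e
          rw [e]
          exact ih i l (hij.trans hkl) (by omega) _ (hWi j l hkl _ (hWi i j hij w hw))
        · by_cases h2 : i = l
          · subst h2
            have e := LinearMap.congr_fun (h.ste k i j hkl hij) w
            simp only [Module.End.mul_apply] at e
            rw [e]
            exact (ih k j (hkl.trans hij) (by omega) _ (hWi i j hij _ (hWi k i hkl w hw))).symm
          · have e := LinearMap.congr_fun (h.comm i j k l hij hkl h1 h2) w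
            simp only [Module.End.mul_apply] at e
            exact e
      let W' : Submodule K V := W ⊓ LinearMap.ker (u i j - 1)
      have hmem : ∀ w, w ∈ W' ↔ w ∈ W ∧ u i j w = w := by
        intro w
        constructor
        · rintro ⟨h1, h2⟩
          exact ⟨h1, sub_eq_zero.1 (LinearMap.mem_ker.1 h2)⟩
        · rintro ⟨h1, h2⟩
          refine ⟨h1, LinearMap.mem_ker.2 ?_⟩
          rw [LinearMap.sub_apply, Module.End.one_apply, h2, sub_self]
      have hW' : W' ∈ S := by
        refine ⟨?_, ?_⟩
        · obtain ⟨w, hw, hw0, hw1⟩ := exists_fixed hW0 (u i j) (h.nil i j hij) (hWi i j hij)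
          intro hb
          have : w ∈ W' := (hmem w).2 ⟨hw, hw1⟩
          rw [hb] at this
          exact hw0 ((Submodule.mem_bot K).1 this)
        · intro k l hkl w hw
          rw [hmem] at hw ⊢
          exact ⟨hWi k l hkl w hw.1, by rw [hc k l hkl w hw.1, hw.2]⟩
      have hle : W' ≤ W := inf_le_left
      have heq : W' = W := by
        by_contra hne
        exact hmin W' hW' (lt_of_le_of_ne hle hne)
      intro w hw
      rw [← heq] at hw
      exact ((hmem w).1 hw).2
  obtain ⟨v, hv, hv0⟩ := Submodule.exists_mem_ne_zero_of_ne_bot hW0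
  exact ⟨v, hv0, fun i j hij => key n i j hij (by omega) v hv⟩

theorem UTri.exists_flag {n : ℕ} : ∀ (d : ℕ) (V : Type u₂) [AddCommGroup V] [Module K V]
    [FiniteDimensional K V] (u : Fin n → Fin n → Module.End K V), UTri u → finrank K V = d →
    ∃ W : ℕ → Submodule K V, W 0 = ⊥ ∧ W d = ⊤ ∧ Monotone W ∧
      ∀ i j, i < j → ∀ k, ∀ v ∈ W (k + 1), u i j v - v ∈ W k := by
  intro d
  induction d with
  | zero =>
    intro V _ _ _ u hu hd
    have hs : Subsingleton V := Module.finrank_zero_iff.1 hd
    refine ⟨fun _ => ⊥, rfl, Subsingleton.elim _ _, fun _ _ _ => le_rfl, ?_⟩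
    intro i j _ k v _
    rw [Submodule.mem_bot]
    exact Subsingleton.elim _ _
  | succ d ih =>
    intro V _ _ _ u hu hd
    have hnt : Nontrivial V := Module.nontrivial_of_finrank_pos (R := K) (by omega)
    obtain ⟨v0, hv0, hfix⟩ := hu.exists_fixed_vector
    let W1 : Submodule K V := K ∙ v0
    have hW1 : ∀ i j, i < j → W1 ≤ W1.comap (u i j) := by
      intro i j hij w hw
      rw [Submodule.mem_comap]
      obtain ⟨c, rfl⟩ := Submodule.mem_span_singleton.1 hw
      rw [map_smul, hfix i j hij]
      exact hw
    classical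
    let u' : Fin n → Fin n → Module.End K (V ⧸ W1) := fun i j =>
      if hij : i < j then W1.mapQ W1 (u i j) (hW1 i j hij) else 1
    have hu'v : ∀ i j, i < j → ∀ v : V, u' i j (W1.mkQ v) = W1.mkQ (u i j v) := by
      intro i j hij v
      simp only [u', dif_pos hij]
      rfl
    have hfr : finrank K (V ⧸ W1) = d := by
      have h1 := Submodule.finrank_quotient_add_finrank W1
      rw [finrank_span_singleton hv0, hd] at h1
      omega
    have hu' : UTri u' := by
      refine ⟨?_, ?_, ?_⟩
      · intro i j hij
        obtain ⟨m, hm⟩ := hu.nil i j hij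
        refine ⟨m, ?_⟩
        have h1 : ∀ (r : ℕ) (v : V), ((u' i j - 1) ^ r) (W1.mkQ v) = W1.mkQ (((u i j - 1) ^ r) v) := by
          intro r
          induction r with
          | zero => intro v; rfl
          | succ r ih2 =>
            intro v
            rw [pow_succ, Module.End.mul_apply, pow_succ, Module.End.mul_apply,
              LinearMap.sub_apply, Module.End.one_apply, hu'v i j hij, ← map_sub, ih2]
            rfl
        apply LinearMap.ext
        intro x
        obtain ⟨v, rfl⟩ := Submodule.mkQ_surjective W1 x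
        rw [h1, hm]
        simp
      · intro i j k l hij hkl h1 h2
        apply LinearMap.ext
        intro x
        obtain ⟨v, rfl⟩ := Submodule.mkQ_surjective W1 x
        have e := LinearMap.congr_fun (hu.comm i j k l hij hkl h1 h2) v
        simp only [Module.End.mul_apply] at e ⊢
        rw [hu'v k l hkl, hu'v i j hij, hu'v i j hij, hu'v k l hkl, e]
      · intro i j l hij hjl
        apply LinearMap.ext
        intro x
        obtain ⟨v, rfl⟩ := Submodule.mkQ_surjective W1 x
        have e := LinearMap.congr_fun (hu.ste i j l hij hjl) v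
        simp only [Module.End.mul_apply] at e ⊢
        rw [hu'v j l hjl, hu'v i j hij, hu'v i j hij, hu'v j l hjl, hu'v i l (hij.trans hjl), e]
    obtain ⟨W', h0, h1, h2, h3⟩ := ih (V ⧸ W1) u' hu' hfr
    refine ⟨fun k => Nat.casesOn k ⊥ (fun k => (W' k).comap W1.mkQ), rfl, ?_, ?_, ?_⟩
    · show (W' d).comap W1.mkQ = ⊤
      rw [h1, Submodule.comap_top]
    · apply monotone_nat_of_le_succ
      intro k
      cases k with
      | zero => exact bot_le
      | succ k => exact Submodule.comap_mono (h2 (Nat.le_succ k))
    · intro i j hij k v hv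
      cases k with
      | zero =>
        show u i j v - v ∈ (⊥ : Submodule K V)
        have hv' : W1.mkQ v ∈ W' 0 := hv
        rw [h0, Submodule.mem_bot, Submodule.mkQ_apply, Submodule.Quotient.mk_eq_zero] at hv'
        obtain ⟨c, rfl⟩ := Submodule.mem_span_singleton.1 hv'
        rw [Submodule.mem_bot, map_smul, hfix i j hij, sub_self]
      | succ k =>
        show W1.mkQ (u i j v - v) ∈ W' k
        have hv' : W1.mkQ v ∈ W' (k + 1) := hv
        have := h3 i j hij k _ hv'
        rw [hu'v i j hij, ← map_sub] at this
        exact this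

theorem UTri.eq_one {V : Type u₂} [AddCommGroup V] [Module K V] [FiniteDimensional K V] {n : ℕ}
    {u : Fin n → Fin n → Module.End K V} (h : UTri u) (i j : Fin n) (hij : i < j)
    (hd : finrank K V ≤ (j : ℕ) - i) : u i j = 1 := by
  obtain ⟨W, h0, h1, hm, hl⟩ := UTri.exists_flag (n := n) (finrank K V) V u h rfl
  have pull : ∀ (k l : Fin n), k < l → ∀ s t : ℕ, ∀ w ∈ W (s + t), u k l w ∈ W s → w ∈ W s := by
    intro k l hkl s t
    induction t with
    | zero => intro w hw _; exact hw
    | succ t ih =>
      intro w hw huw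
      apply ih w _ huw
      have h2 := hl k l hkl (s + t) w hw
      have h3 := (W (s + t)).sub_mem (hm (Nat.le_add_right s t) huw) h2
      rwa [sub_sub_cancel] at h3
  have pull' : ∀ (k l : Fin n), k < l → ∀ s : ℕ, ∀ w, u k l w ∈ W s → w ∈ W s := by
    intro k l hkl s w huw
    refine pull k l hkl s (finrank K V) w ?_ huw
    apply hm (Nat.le_add_left _ s)
    rw [h1]
    exact Submodule.mem_top
  have lower : ∀ r : ℕ, ∀ i j : Fin n, i < j → (j : ℕ) - i = r + 1 → ∀ k : ℕ,
      ∀ v ∈ W (k + r + 1), u i j v - v ∈ W k := by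
    intro r
    induction r with
    | zero => intro i j hij _ k v hv; exact hl i j hij k v hv
    | succ r ih =>
      intro i j hij hr k v hv
      have hij' : (i : ℕ) < j := hij
      have hj := j.2
      let l : Fin n := ⟨i + 1, by omega⟩
      have hil : i < l := Fin.lt_def.2 (Nat.lt_succ_self _)
      have hlj : l < j := Fin.lt_def.2 (show (i : ℕ) + 1 < j by omega)
      have hlv : (l : ℕ) = i + 1 := rfl
      have ha : u l j v - v ∈ W (k + 1) := ih l j hlj (by omega) (k + 1) v (by
        have : k + 1 + r + 1 = k + (r + 1) + 1 := by omega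
        rw [this]; exact hv)
      have hb : u i l v - v ∈ W (k + r + 1) := hl i l hil (k + r + 1) v hv
      have hc : u i l (u l j v - v) - (u l j v - v) ∈ W k := hl i l hil k _ ha
      have hd' : u l j (u i l v - v) - (u i l v - v) ∈ W k := ih l j hlj (by omega) k _ hb
      have e := LinearMap.congr_fun (h.ste i l j hil hlj) v
      simp only [Module.End.mul_apply] at e
      have e1 := LinearMap.congr_fun (h.comm i j l j hij hlj (ne_of_gt hlj) (ne_of_lt hij)) (u i l v)
      have e2 := LinearMap.congr_fun (h.comm i j i l hij hil (ne_of_gt hij) (ne_of_lt hil)) v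
      simp only [Module.End.mul_apply] at e1 e2
      rw [e1, e2] at e
      have h4 : u l j (u i l (u i j v - v)) ∈ W k := by
        have h5 := (W k).sub_mem hc hd'
        have h6 : u i l (u l j v - v) - (u l j v - v) - (u l j (u i l v - v) - (u i l v - v)) =
            u l j (u i l (u i j v - v)) := by
          simp only [map_sub]
          rw [e]
          abel
        rwa [h6] at h5
      exact pull' i l hil k _ (pull' l j hlj k _ h4)
  ext v
  have hij' : (i : ℕ) < j := hij
  have h2 := lower ((j : ℕ) - i - 1) i j hij (by omega) 0 v (by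
    apply hm (show finrank K V ≤ 0 + ((j : ℕ) - i - 1) + 1 by omega)
    rw [h1]
    exact Submodule.mem_top)
  rw [h0, Submodule.mem_bot, sub_eq_zero] at h2
  rw [h2, Module.End.one_apply]

end Pool.Agent.L5helper41.GR
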