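import Mathlib

set_option autoImplicit false

/-!
Linear algebra for families of endomorphisms with the relations of the elementary matrices.
-/

namespace Pool.Agent.L5helper41.GR

open Module

section one

variable {K V : Type*} [Field K] [AddCommGroup V] [Module K V]

/-- the shift of an eigenvector -/
lemma shift {a x y : Module.End K V} (hxy : x * y = a * y * x) (hax : a * x = x * a)
    (hay : a * y = y * a) {v : V} {μ β : K} (hμ : μ ≠ 0) (h1 : a v = μ • v) (h2 : y v = β • v) :
    a (x v) = μ • x v ∧ y (x v) = (μ⁻¹ * β) • x v := by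
  have e1 : a (x v) = μ • x v := by
    have := LinearMap.congr_fun hax v
    simp only [Module.End.mul_apply] at this
    rw [this, h1, map_smul]
  refine ⟨e1, ?_⟩
  have e2 := LinearMap.congr_fun hxy v
  simp only [Module.End.mul_apply] at e2
  rw [h2, map_smul] at e2
  have e3 : a (y (x v)) = μ • y (x v) := by
    have := LinearMap.congr_fun hay (x v)
    simp only [Module.End.mul_apply] at this
    rw [this, e1, map_smul]
  rw [e3] at e2
  rw [mul_smul, e2, smul_smul, inv_mul_cancel₀ hμ, one_smul]

lemma shift_iter {a x y : Module.End K V} (hxy : x * y = a * y * x) (hax : a * x = x * a)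
    (hay : a * y = y * a) (hx : Function.Injective x) {v : V} {μ β : K} (hv : v ≠ 0) (hμ : μ ≠ 0)
    (h1 : a v = μ • v) (h2 : y v = β • v) (k : ℕ) :
    ∃ w : V, w ≠ 0 ∧ a w = μ • w ∧ y w = (μ⁻¹ ^ k * β) • w := by
  induction k with
  | zero => exact ⟨v, hv, h1, by rw [pow_zero, one_mul]; exact h2⟩
  | succ k ih =>
    obtain ⟨w, hw, h3, h4⟩ := ih
    obtain ⟨h5, h6⟩ := shift hxy hax hay hμ h3 h4
    refine ⟨x w, ?_, h5, ?_⟩
    · intro h
      exact hw (hx (by rw [h, map_zero]))
    · rw [h6, pow_succ']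
      congr 1
      ring

/-- a common eigenvector in an invariant subspace -/
lemma exists_eig [IsAlgClosed K] [FiniteDimensional K V] (F : Submodule K V) (hF : F ≠ ⊥)
    (y : Module.End K V) (hy : ∀ v ∈ F, y v ∈ F) : ∃ v ∈ F, v ≠ 0 ∧ ∃ β : K, y v = β • v := by
  have hn : Nontrivial F := Submodule.nontrivial_iff_ne_bot.2 hF
  obtain ⟨β, hβ⟩ := Module.End.exists_eigenvalue (y.restrict hy)
  obtain ⟨v, hv⟩ := hβ.exists_hasEigenvector
  refine ⟨v, v.2, ?_, β, ?_⟩
  · intro h
    exact hv.2 (Subtype.ext h)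
  · have := hv.apply_eq_smul
    exact congrArg Subtype.val this

/-- the eigenvalues of the commutator in a Heisenberg group are roots of unity -/
lemma pow_eq_one [IsAlgClosed K] [FiniteDimensional K V] {a x y : Module.End K V}
    (hxy : x * y = a * y * x) (hax : a * x = x * a) (hay : a * y = y * a)
    (hx : Function.Injective x) (hy : Function.Injective y) (ha : Function.Injective a)
    {μ : K} (hμ : a.HasEigenvalue μ) : ∃ m : ℕ, 1 ≤ m ∧ m ≤ finrank K V ∧ μ ^ m = 1 := by
  have hμ0 : μ ≠ 0 := by
    rintro rfl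
    obtain ⟨v, hv⟩ := hμ.exists_hasEigenvector
    have := hv.apply_eq_smul
    rw [zero_smul] at this
    exact hv.2 (ha (by rw [this, map_zero]))
  obtain ⟨v, hvF, hv, β, hβ⟩ := exists_eig (Module.End.eigenspace a μ) hμ y (by
    intro v hv
    rw [Module.End.mem_eigenspace_iff] at hv ⊢
    have := LinearMap.congr_fun hay v
    simp only [Module.End.mul_apply] at this
    rw [this, hv, map_smul])
  rw [Module.End.mem_eigenspace_iff] at hvF
  have hβ0 : β ≠ 0 := by
    rintro rfl
    rw [zero_smul] at hβ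
    exact hv (hy (by rw [hβ, map_zero]))
  choose w hw1 hw2 hw3 using shift_iter hxy hax hay hx hv hμ0 hvF hβ
  by_contra hcon
  push Not at hcon
  have hinj : Function.Injective (fun k : Fin (finrank K V + 1) => μ⁻¹ ^ (k : ℕ) * β) := by
    have key : ∀ k l : ℕ, k < l → l ≤ finrank K V → μ⁻¹ ^ k * β ≠ μ⁻¹ ^ l * β := by
      intro k l hkl hl h
      have h1 := mul_right_cancel₀ hβ0 h
      apply hcon (l - k) (by omega) (by omega)
      have h2 : μ⁻¹ ^ l = μ⁻¹ ^ k * μ⁻¹ ^ (l - k) := by
        rw [← pow_add]; congr 1; omega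
      rw [h2] at h1
      have h3 : μ⁻¹ ^ k ≠ 0 := pow_ne_zero _ (inv_ne_zero hμ0)
      have h4 : μ⁻¹ ^ (l - k) = 1 := mul_left_cancel₀ h3 (by rw [← h1, mul_one])
      rw [inv_pow] at h4
      exact inv_eq_one.1 h4
    intro k l h
    rcases lt_trichotomy (k : ℕ) (l : ℕ) with h1 | h1 | h1
    · exact absurd h (key k l h1 (by omega))
    · exact Fin.ext h1
    · exact absurd h.symm (key l k h1 (by omega))
  have hli := Module.End.eigenvectors_linearIndependent' y
    (fun k : Fin (finrank K V + 1) => μ⁻¹ ^ (k : ℕ) * β) hinj (fun k => w k)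
    (fun k => ⟨Module.End.mem_eigenspace_iff.2 (hw3 k), hw1 k⟩)
  have h5 := hli.fintype_card_le_finrank
  rw [Fintype.card_fin] at h5
  omega

/-- the dimension of a space on which commuting Heisenberg pairs act -/
lemma two_pow_le [IsAlgClosed K] [FiniteDimensional K V] {ι : Type*} [DecidableEq ι]
    {a : Module.End K V} {x y : ι → Module.End K V} {μ : K} (hμ1 : μ ≠ 1) (hμ0 : μ ≠ 0)
    (J : Finset ι) (hxy : ∀ l ∈ J, x l * y l = a * y l * x l)
    (hax : ∀ l ∈ J, a * x l = x l * a) (hay : ∀ l ∈ J, a * y l = y l * a)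
    (hxy' : ∀ l ∈ J, ∀ m ∈ J, l ≠ m → x l * y m = y m * x l)
    (hyy : ∀ l ∈ J, ∀ m ∈ J, l ≠ m → y l * y m = y m * y l)
    (hx : ∀ l ∈ J, Function.Injective (x l)) (hy : ∀ l ∈ J, Function.Injective (y l)) :
    ∀ F : Submodule K V, F ≠ ⊥ → (∀ v ∈ F, a v = μ • v) →
      (∀ l ∈ J, ∀ v ∈ F, x l v ∈ F ∧ y l v ∈ F) → 2 ^ J.card ≤ finrank K F := by
  induction J using Finset.induction_on with
  | empty =>
    intro F hF _ _
    rw [Finset.card_empty, pow_zero]
    have : Nontrivial F := Submodule.nontrivial_iff_ne_bot.2 hF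
    exact Module.finrank_pos
  | insert l J hl ih =>
    intro F hF hFa hFi
    have hlm : l ∈ insert l J := Finset.mem_insert_self l J
    have hJm : ∀ m ∈ J, m ∈ insert l J := fun m hm => Finset.mem_insert_of_mem hm
    have hne : ∀ m ∈ J, m ≠ l := fun m hm h => hl (h ▸ hm)
    obtain ⟨v, hvF, hv, β, hβ⟩ := exists_eig F hF (y l) (fun v hv => (hFi l hlm v hv).2)
    have hβ0 : β ≠ 0 := by
      rintro rfl
      rw [zero_smul] at hβ
      exact hv (hy l hlm (by rw [hβ, map_zero]))
    set F' : Submodule K V := F ⊓ Module.End.eigenspace (y l) β with hF'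
    have hF'0 : F' ≠ ⊥ := by
      intro h
      have : v ∈ F' := ⟨hvF, Module.End.mem_eigenspace_iff.2 hβ⟩
      rw [h] at this
      exact hv ((Submodule.mem_bot K).1 this)
    have h1 := ih (fun m hm => hxy m (hJm m hm)) (fun m hm => hax m (hJm m hm))
      (fun m hm => hay m (hJm m hm)) (fun m hm k hk => hxy' m (hJm m hm) k (hJm k hk))
      (fun m hm k hk => hyy m (hJm m hm) k (hJm k hk)) (fun m hm => hx m (hJm m hm))
      (fun m hm => hy m (hJm m hm)) F' hF'0 (fun v hv => hFa v hv.1) (by
        rintro m hm w ⟨hw1, hw2'⟩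
        have hw2 := Module.End.mem_eigenspace_iff.1 hw2'
        refine ⟨⟨(hFi m (hJm m hm) w hw1).1, ?_⟩, ⟨(hFi m (hJm m hm) w hw1).2, ?_⟩⟩
        · refine Module.End.mem_eigenspace_iff.2 ?_
          have := LinearMap.congr_fun (hxy' m (hJm m hm) l hlm (hne m hm)) w
          simp only [Module.End.mul_apply] at this
          rw [← this, hw2, map_smul]
        · refine Module.End.mem_eigenspace_iff.2 ?_
          have := LinearMap.congr_fun (hyy m (hJm m hm) l hlm (hne m hm)) w
          simp only [Module.End.mul_apply] at this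
          rw [← this, hw2, map_smul])
    set G : Submodule K V := F'.map (x l) with hG
    have h2 : finrank K G = finrank K F' :=
      (LinearEquiv.finrank_eq (Submodule.equivMapOfInjective (x l) (hx l hlm) F')).symm
    have h3 : F' ⊓ G = ⊥ := by
      rw [eq_bot_iff]
      rintro w ⟨⟨_, hw2'⟩, ⟨z, ⟨hz1, hz2'⟩, hzw⟩⟩
      have hw2 := Module.End.mem_eigenspace_iff.1 hw2'
      have hz2 := Module.End.mem_eigenspace_iff.1 hz2'
      have h4 := (shift (hxy l hlm) (hax l hlm) (hay l hlm) hμ0 (hFa z hz1) hz2).2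
      rw [hzw, hw2] at h4
      rw [Submodule.mem_bot]
      by_contra hw0
      have h5 : (β - μ⁻¹ * β) • w = 0 := by rw [sub_smul, h4, sub_self]
      rcases smul_eq_zero.1 h5 with h6 | h6
      · apply hμ1
        have h7 : β * (1 - μ⁻¹) = 0 := by rw [← h6]; ring
        rcases mul_eq_zero.1 h7 with h8 | h8
        · exact absurd h8 hβ0
        · have : μ⁻¹ = 1 := (sub_eq_zero.1 h8).symm
          exact inv_eq_one.1 this
      · exact hw0 h6
    have h4 : F' ⊔ G ≤ F := by
      refine sup_le inf_le_left ?_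
      rintro _ ⟨z, hz, rfl⟩
      exact (hFi l hlm z hz.1).1
    have h5 := Submodule.finrank_sup_add_finrank_inf_eq F' G
    rw [h3, finrank_bot, h2] at h5
    have h6 := Submodule.finrank_mono h4
    rw [Finset.card_insert_of_notMem hl, pow_succ]
    omega

end one

section fam

variable {K V : Type*} [Field K] [AddCommGroup V] [Module K V]

/-- the relations between the elementary matrices -/
structure Rel {n : ℕ} (u : Fin n → Fin n → Module.End K V) : Prop where
  inj : ∀ i j, i ≠ j → Function.Injective (u i j)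
  comm : ∀ i j k l, i ≠ j → k ≠ l → j ≠ k → i ≠ l → u i j * u k l = u k l * u i j
  ste : ∀ i j l, i ≠ j → j ≠ l → i ≠ l → u i j * u j l = u i l * u j l * u i j

variable {n : ℕ} {u : Fin n → Fin n → Module.End K V}

lemma exists_third (hn : 3 ≤ n) (i j : Fin n) : ∃ l : Fin n, l ≠ i ∧ l ≠ j := by
  have hc : ({i, j} : Finset (Fin n)).card < Fintype.card (Fin n) := by
    rw [Fintype.card_fin]
    exact lt_of_le_of_lt Finset.card_le_two (by omega)
  obtain ⟨l, hl⟩ := Finset.exists_mem_notMem_of_card_lt_card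
    (s := ({i, j} : Finset (Fin n))) (t := Finset.univ) (by rwa [Finset.card_univ])
  refine ⟨l, ?_, ?_⟩
  · rintro rfl; exact hl.2 (by simp)
  · rintro rfl; exact hl.2 (by simp)

theorem Rel.root [IsAlgClosed K] [FiniteDimensional K V] (h : Rel u) (hn : 3 ≤ n) {i j : Fin n}
    (hij : i ≠ j) {μ : K} (hμ : (u i j).HasEigenvalue μ) :
    ∃ m : ℕ, 1 ≤ m ∧ m ≤ finrank K V ∧ μ ^ m = 1 := by
  obtain ⟨l, hli, hlj⟩ := exists_third hn i j
  exact pow_eq_one (h.ste i l j hli.symm hlj hij) (h.comm i j i l hij hli.symm hij.symm hli.symm)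
    (h.comm i j l j hij hlj hlj.symm hij) (h.inj _ _ hli.symm) (h.inj _ _ hlj) (h.inj _ _ hij) hμ

theorem Rel.eig_one [IsAlgClosed K] [FiniteDimensional K V] (h : Rel u) (hn : 3 ≤ n)
    (hd : finrank K V < n) {i j : Fin n} (hij : i ≠ j) {μ : K} (hμ : (u i j).HasEigenvalue μ) :
    μ = 1 := by
  by_contra hμ1
  obtain ⟨m, hm1, hm2, hm3⟩ := h.root hn hij hμ
  have hμ0 : μ ≠ 0 := by
    rintro rfl
    rw [zero_pow (by omega)] at hm3
    exact zero_ne_one hm3
  have hmem : ∀ l ∈ (Finset.univ \ {i, j} : Finset (Fin n)), l ≠ i ∧ l ≠ j := by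
    intro l hl
    simp only [Finset.mem_sdiff, Finset.mem_univ, Finset.mem_insert, Finset.mem_singleton,
      true_and, not_or] at hl
    exact hl
  have h1 := two_pow_le (a := u i j) (x := fun l => u i l) (y := fun l => u l j) hμ1 hμ0
    (Finset.univ \ {i, j})
    (fun l hl => h.ste i l j (hmem l hl).1.symm (hmem l hl).2 hij)
    (fun l hl => h.comm i j i l hij (hmem l hl).1.symm hij.symm (hmem l hl).1.symm)
    (fun l hl => h.comm i j l j hij (hmem l hl).2 (hmem l hl).2.symm hij)
    (fun l hl m hm hlm => h.comm i l m j (hmem l hl).1.symm (hmem m hm).2 hlm hij)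
    (fun l hl m hm hlm => h.comm l j m j (hmem l hl).2 (hmem m hm).2 (hmem m hm).2.symm
      (hmem l hl).2)
    (fun l hl => h.inj _ _ (hmem l hl).1.symm) (fun l hl => h.inj _ _ (hmem l hl).2)
    (Module.End.eigenspace (u i j) μ) hμ (fun v hv => Module.End.mem_eigenspace_iff.1 hv) (by
      intro l hl v hv
      rw [Module.End.mem_eigenspace_iff] at hv
      constructor
      · rw [Module.End.mem_eigenspace_iff]
        have := LinearMap.congr_fun (h.comm i j i l hij (hmem l hl).1.symm hij.symm
          (hmem l hl).1.symm) v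
        simp only [Module.End.mul_apply] at this
        show u i j (u i l v) = μ • u i l v
        rw [this, hv, map_smul]
      · rw [Module.End.mem_eigenspace_iff]
        have := LinearMap.congr_fun (h.comm i j l j hij (hmem l hl).2 (hmem l hl).2.symm hij) v
        simp only [Module.End.mul_apply] at this
        show u i j (u l j v) = μ • u l j v
        rw [this, hv, map_smul])
  have hc : (Finset.univ \ {i, j} : Finset (Fin n)).card = n - 2 := by
    rw [Finset.card_sdiff_of_subset (Finset.subset_univ _), Finset.card_univ, Fintype.card_fin,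
      Finset.card_pair hij]
  rw [hc] at h1
  have h2 := Submodule.finrank_le (Module.End.eigenspace (u i j) μ)
  rcases Nat.lt_or_ge n 4 with h4 | h4
  · have hn3 : n = 3 := by omega
    subst hn3
    have h5 : Module.End.eigenspace (u i j) μ = ⊤ := by
      apply Submodule.eq_top_of_finrank_eq
      norm_num at h1
      omega
    have hsc : ∀ v, u i j v = μ • v := fun v =>
      Module.End.mem_eigenspace_iff.1 (h5 ▸ Submodule.mem_top)
    obtain ⟨l, hli, hlj⟩ := exists_third le_rfl i j
    have e1 : u i l = 1 := by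
      have hs : Function.Surjective (u j l) :=
        LinearMap.injective_iff_surjective.1 (h.inj j l hlj.symm)
      ext v
      obtain ⟨w, rfl⟩ := hs v
      have := LinearMap.congr_fun (h.ste i j l hij hlj.symm hli.symm) w
      simp only [Module.End.mul_apply] at this
      rw [hsc, hsc, map_smul, map_smul] at this
      have h6 := smul_right_injective V hμ0 this
      rw [Module.End.one_apply]
      exact h6.symm
    obtain ⟨v, hv⟩ := hμ.exists_hasEigenvector
    have := LinearMap.congr_fun (h.ste i l j hli.symm hlj hij) v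
    rw [e1] at this
    simp only [Module.End.mul_apply, Module.End.one_apply] at this
    rw [hsc] at this
    have h7 : (1 - μ) • u l j v = 0 := by rw [sub_smul, one_smul, ← this, sub_self]
    rcases smul_eq_zero.1 h7 with h8 | h8
    · exact hμ1 (sub_eq_zero.1 h8).symm
    · exact hv.2 (h.inj l j hlj (by rw [h8, map_zero]))
  · have h5 : n ≤ 2 ^ (n - 2) := by
      obtain ⟨m, rfl⟩ : ∃ m, n = m + 4 := ⟨n - 4, by omega⟩
      have h6 : m + 4 - 2 = m + 2 := by omega
      rw [h6]
      have h7 : m < 2 ^ m := Nat.lt_two_pow_self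
      have h8 : 2 ^ (m + 2) = 4 * 2 ^ m := by ring
      omega
    omega

/-- an endomorphism whose only eigenvalue is `1` is unipotent -/
lemma dvd_of_roots {q : Polynomial K} (s : Multiset K)
    (hs : ∀ r ∈ s, (Polynomial.X - Polynomial.C r) ∣ q) :
    (s.map (fun r => Polynomial.X - Polynomial.C r)).prod ∣ q ^ s.card := by
  induction s using Multiset.induction_on with
  | empty => simp
  | cons r s ih =>
    rw [Multiset.map_cons, Multiset.prod_cons, Multiset.card_cons, pow_succ']
    exact mul_dvd_mul (hs r (Multiset.mem_cons_self r s))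
      (ih fun t ht => hs t (Multiset.mem_cons_of_mem ht))

lemma unip [IsAlgClosed K] [FiniteDimensional K V] (a : Module.End K V) (N : ℕ)
    (ha : ∀ μ : K, a.HasEigenvalue μ → μ ^ N = 1) : (a ^ N - 1) ^ finrank K V = 0 := by
  have h1 : a.charpoly.Splits := IsAlgClosed.splits _
  have h2 := h1.eq_prod_roots_of_monic a.charpoly_monic
  have h3 : Multiset.card a.charpoly.roots = finrank K V := by
    rw [← h1.natDegree_eq_card_roots, LinearMap.charpoly_natDegree]
  have h4 : a.charpoly ∣ (Polynomial.X ^ N - 1) ^ finrank K V := by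
    rw [← h3]
    nth_rewrite 1 [h2]
    apply dvd_of_roots
    intro r hr
    rw [Polynomial.dvd_iff_isRoot, Polynomial.IsRoot, Polynomial.eval_sub, Polynomial.eval_pow,
      Polynomial.eval_X, Polynomial.eval_one, sub_eq_zero]
    apply ha
    rw [Module.End.hasEigenvalue_iff_isRoot_charpoly]
    exact Polynomial.isRoot_of_mem_roots hr
  obtain ⟨c, hc⟩ := h4
  have h5 := congrArg (Polynomial.aeval a) hc
  rw [map_mul, LinearMap.aeval_self_charpoly, zero_mul, map_pow, map_sub, map_pow,
    Polynomial.aeval_X, map_one] at h5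
  exact h5

end fam

end Pool.Agent.L5helper41.GR
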