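import Pool.Agent.L5helper41.GR.Pos

set_option autoImplicit false
set_option linter.unusedSectionVars false

/-!
Induced representations in matrix form, and the results for subgroups of finite index.
-/

namespace Pool.Agent.L5helper41.GR

open Matrix Module

section ind

variable {Λ : Type} [Group Λ] (Γ : Subgroup Λ) {ι : Type} [Fintype ι] [DecidableEq ι]
  {R : Type} [CommRing R]

/-- the cocycle of the section `Quotient.out` -/
lemma coc_mem (g : Λ) (x : Λ ⧸ Γ) : (Quotient.out (g • x) : Λ)⁻¹ * g * Quotient.out x ∈ Γ := by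
  rw [mul_assoc, ← QuotientGroup.eq, QuotientGroup.out_eq']
  have h1 : ((g * Quotient.out x : Λ) : Λ ⧸ Γ) = g • ((Quotient.out x : Λ) : Λ ⧸ Γ) := rfl
  rw [h1, QuotientGroup.out_eq']

/-- the cocycle -/
noncomputable def coc (g : Λ) (x : Λ ⧸ Γ) : Γ := ⟨_, coc_mem Γ g x⟩

lemma coc_one (x : Λ ⧸ Γ) : coc Γ 1 x = 1 := by
  apply Subtype.ext
  show (Quotient.out ((1 : Λ) • x) : Λ)⁻¹ * 1 * Quotient.out x = 1
  rw [one_smul, mul_one, inv_mul_cancel]

lemma coc_mul (g h : Λ) (x : Λ ⧸ Γ) : coc Γ (g * h) x = coc Γ g (h • x) * coc Γ h x := by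
  apply Subtype.ext
  show (Quotient.out ((g * h) • x) : Λ)⁻¹ * (g * h) * Quotient.out x =
    ((Quotient.out (g • h • x) : Λ)⁻¹ * g * Quotient.out (h • x)) *
      ((Quotient.out (h • x) : Λ)⁻¹ * h * Quotient.out x)
  rw [mul_smul]
  group

variable [Fintype (Λ ⧸ Γ)] [DecidableEq (Λ ⧸ Γ)]

/-- the matrices of the induced representation -/
noncomputable def indM (ρ : Γ →* (Matrix ι ι R)ˣ) (g : Λ) :
    Matrix ((Λ ⧸ Γ) × ι) ((Λ ⧸ Γ) × ι) R :=
  fun y x => if y.1 = g • x.1 then (ρ (coc Γ g x.1)).val y.2 x.2 else 0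

lemma indM_one (ρ : Γ →* (Matrix ι ι R)ˣ) : indM Γ ρ 1 = 1 := by
  ext ⟨y, i⟩ ⟨x, j⟩
  unfold indM
  rw [coc_one, map_one, Units.val_one, one_smul, Matrix.one_apply, Matrix.one_apply]
  by_cases h : y = x
  · by_cases h' : i = j
    · simp [h, h']
    · simp [h, h']
  · simp [h]

lemma indM_mul (ρ : Γ →* (Matrix ι ι R)ˣ) (g h : Λ) :
    indM Γ ρ (g * h) = indM Γ ρ g * indM Γ ρ h := by
  ext ⟨y, i⟩ ⟨x, j⟩
  rw [Matrix.mul_apply, Fintype.sum_prod_type, Finset.sum_eq_single (h • x)]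
  · unfold indM
    simp only [if_true]
    rw [mul_smul]
    by_cases hy : y = g • h • x
    · simp only [if_pos hy]
      rw [coc_mul, map_mul, Units.val_mul, Matrix.mul_apply]
    · simp only [if_neg hy, zero_mul, Finset.sum_const_zero]
  · intro z _ hz
    apply Finset.sum_eq_zero
    intro l _
    unfold indM
    simp only [if_neg hz, mul_zero]
  · intro h'
    exact absurd (Finset.mem_univ _) h'

/-- the induced representation -/
noncomputable def ind (ρ : Γ →* (Matrix ι ι R)ˣ) :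
    Λ →* (Matrix ((Λ ⧸ Γ) × ι) ((Λ ⧸ Γ) × ι) R)ˣ :=
  MonoidHom.toHomUnits
    { toFun := indM Γ ρ
      map_one' := indM_one Γ ρ
      map_mul' := indM_mul Γ ρ }

lemma ind_apply (ρ : Γ →* (Matrix ι ι R)ˣ) (γ : Γ) (i j : ι) :
    (ind Γ ρ ((Quotient.out ((1 : Λ) : Λ ⧸ Γ) : Λ) * γ *
      (Quotient.out ((1 : Λ) : Λ ⧸ Γ) : Λ)⁻¹)).val (((1 : Λ) : Λ ⧸ Γ), i) (((1 : Λ) : Λ ⧸ Γ), j) =
      (ρ γ).val i j := by
  set x0 : Λ ⧸ Γ := ((1 : Λ) : Λ ⧸ Γ) with hx0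
  set t : Λ := Quotient.out x0 with ht
  have htΓ : t ∈ Γ := by
    have h1 : (t : Λ ⧸ Γ) = ((1 : Λ) : Λ ⧸ Γ) := QuotientGroup.out_eq' x0
    have h2 := QuotientGroup.eq.1 h1.symm
    rwa [inv_one, one_mul] at h2
  have hfix : (t * γ * t⁻¹) • x0 = x0 := by
    have h1 : (t * γ * t⁻¹) • x0 = ((t * γ * t⁻¹ * 1 : Λ) : Λ ⧸ Γ) := rfl
    rw [h1, hx0, mul_one]
    apply Eq.symm
    apply QuotientGroup.eq.2
    rw [inv_one, one_mul]
    exact Γ.mul_mem (Γ.mul_mem htΓ γ.2) (Γ.inv_mem htΓ)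
  have hcoc : coc Γ (t * γ * t⁻¹) x0 = γ := by
    apply Subtype.ext
    show (Quotient.out ((t * γ * t⁻¹) • x0) : Λ)⁻¹ * (t * γ * t⁻¹) * Quotient.out x0 = γ
    rw [hfix, ← ht]
    group
  show indM Γ ρ (t * γ * t⁻¹) (x0, i) (x0, j) = (ρ γ).val i j
  unfold indM
  simp only [hfix, if_true, hcoc]

lemma exists_inj (ρ : Γ →* (Matrix ι ι R)ˣ) :
    ∃ F : ρ.range → (ind Γ ρ).range, Function.Injective F := by
  choose r hr using fun x : ρ.range => x.2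
  refine ⟨fun x => ⟨ind Γ ρ ((Quotient.out ((1 : Λ) : Λ ⧸ Γ) : Λ) * (r x : Γ) *
      (Quotient.out ((1 : Λ) : Λ ⧸ Γ) : Λ)⁻¹), _, rfl⟩, ?_⟩
  intro x y hxy
  apply Subtype.ext
  apply Units.ext
  ext i j
  rw [← hr x, ← hr y, ← ind_apply, ← ind_apply]
  have h1 := congrArg Subtype.val hxy
  simp only at h1
  rw [h1]

end ind

section final

variable {n : ℕ} {Λ : Type} [Group Λ] {ι : Type} [Fintype ι] [DecidableEq ι]

/-- **Part 2** for subgroups of finite index -/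
theorem finite_ring_sub (hn : 3 ≤ n) (hfg : Group.FG Λ) (hq : FQ n Λ) (Γ : Subgroup Λ)
    (hΓ : Γ.index ≠ 0) {R : Type} [CommRing R] (N : ℕ) (hN0 : N ≠ 0) (hN : (N : R) = 0)
    (ρ : Γ →* (Matrix ι ι R)ˣ) : Finite ρ.range := by
  classical
  have : Γ.FiniteIndex := ⟨hΓ⟩
  have : Fintype (Λ ⧸ Γ) := Fintype.ofFinite _
  obtain ⟨F, hF⟩ := exists_inj Γ ρ
  have h1 : Finite (ind Γ ρ).range := finite_ring hn hfg hq N hN0 hN (ind Γ ρ)
  exact Finite.of_injective F hF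

theorem bound_field_sub (hn : 3 ≤ n) (hfg : Group.FG Λ) (hq : FQ n Λ) (Γ : Subgroup Λ)
    (hΓ : Γ.index ≠ 0) {K : Type} [Field K] (p : ℕ) (hp : p.Prime) (hpK : (p : K) = 0)
    (ρ : Γ →* (Matrix ι ι K)ˣ) :
    Finite ρ.range ∧ Nat.card ρ.range ≤ bd n (Γ.index * Fintype.card ι) p := by
  classical
  have : Γ.FiniteIndex := ⟨hΓ⟩
  have : Fintype (Λ ⧸ Γ) := Fintype.ofFinite _
  obtain ⟨F, hF⟩ := exists_inj Γ ρ
  obtain ⟨h1, h2⟩ := bound_field hn hfg hq p hp hpK (ind Γ ρ)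
  have hc : Fintype.card ((Λ ⧸ Γ) × ι) = Γ.index * Fintype.card ι := by
    rw [Fintype.card_prod, Subgroup.index, Nat.card_eq_fintype_card]
  rw [hc] at h2
  exact ⟨Finite.of_injective F hF, (Nat.card_le_card_of_injective F hF).trans h2⟩

end final

end Pool.Agent.L5helper41.GR
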