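import Pool.Agent.L5helper41.GR.Ind
import Mathlib

/-!
Actions of groups of the genus of `SL(n, ℤ)` on modules with fewer than `n` generators.
-/

namespace Pool.Agent.L5helper41.GR

open Matrix

section perfect

variable {n : ℕ} {Λ : Type} [Group Λ]

/-- every homomorphism to a commutative group is trivial -/
theorem hom_comm (hn : 3 ≤ n) (hfg : Group.FG Λ) (hq : FQ n Λ) {C : Type} [CommGroup C]
    (f : Λ →* C) : f = 1 := by
  let R := MonoidAlgebra ℤ C
  let u : C →* Rˣ := (MonoidAlgebra.of ℤ C).toHomUnits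
  let θ : R →* Matrix (Fin 1) (Fin 1) R := (Matrix.scalar (Fin 1)).toMonoidHom
  let ρ : Λ →* (Matrix (Fin 1) (Fin 1) R)ˣ := (Units.map θ).comp (u.comp f)
  have h1 : ρ = 1 := trivial_ring hn (by simp; omega) hfg hq ρ
  ext1 g
  have h2 : ρ g = 1 := by rw [h1]; rfl
  have h3 : (ρ g).val 0 0 = 1 := by rw [h2]; simp
  have h4 : (ρ g).val 0 0 = MonoidAlgebra.of ℤ C (f g) := by
    show Matrix.scalar (Fin 1) (MonoidAlgebra.of ℤ C (f g)) 0 0 = _
    simp
  rw [h4] at h3
  have h5 : MonoidAlgebra.of ℤ C (f g) = MonoidAlgebra.of ℤ C 1 := by rw [h3, map_one]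
  exact MonoidAlgebra.of_injective h5

end perfect

section mod

variable {n : ℕ} {Λ : Type} [Group Λ]

lemma smul_top_stable {A : Type} [CommRing A] {M : Type} [AddCommGroup M] [Module A M]
    (I : Ideal A) (f : M →ₗ[A] M) : I • (⊤ : Submodule A M) ≤ (I • (⊤ : Submodule A M)).comap f := by
  rw [← Submodule.map_le_iff_le_comap, Submodule.map_smul'']
  exact Submodule.smul_mono le_rfl le_top

/-- if `f - 1` maps `M` into `J M`, then it maps `I M` into `(I * J) M` -/
lemma sub_smul_mem {A : Type} [CommRing A] {M : Type} [AddCommGroup M] [Module A M]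
    (I J : Ideal A) (f : M →ₗ[A] M) (hf : ∀ x, f x - x ∈ J • (⊤ : Submodule A M)) (c : M)
    (hc : c ∈ I • (⊤ : Submodule A M)) : f c - c ∈ (I * J) • (⊤ : Submodule A M) := by
  have h1 : (I • (⊤ : Submodule A M)).map (f - LinearMap.id) ≤ (I * J) • (⊤ : Submodule A M) := by
    rw [Submodule.map_smul'', Submodule.mul_smul]
    apply Submodule.smul_mono le_rfl
    rintro _ ⟨x, _, rfl⟩
    exact hf x
  exact h1 ⟨c, hc, rfl⟩

lemma mod_one (hn : 3 ≤ n) (hfg : Group.FG Λ) (hq : FQ n Λ) {A : Type} [CommRing A]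
    {M : Type} [AddCommGroup M] [Module A M] (s : Finset M) (hs : s.card < n)
    (hspan : Submodule.span A (s : Set M) = ⊤) (ρ : Λ →* Module.End A M) (m : Ideal A)
    (hm : m.IsMaximal) (g : Λ) (x : M) : ρ g x - x ∈ m • (⊤ : Submodule A M) := by
  classical
  let _ : Field (A ⧸ m) := Ideal.Quotient.field m
  let V := M ⧸ (m • (⊤ : Submodule A M))
  have hsur : Function.Surjective (algebraMap A (A ⧸ m)) := Ideal.Quotient.mk_surjective
  let q : M →ₗ[A] V := (m • (⊤ : Submodule A M)).mkQ
  -- generators of V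
  let t : Finset V := s.image q
  have ht : t.card < n := (Finset.card_image_le).trans_lt hs
  have htop : Submodule.span (A ⧸ m) (t : Set V) = ⊤ := by
    rw [eq_top_iff]
    rintro v -
    obtain ⟨y, rfl⟩ := (m • (⊤ : Submodule A M)).mkQ_surjective v
    have hy : y ∈ Submodule.span A (s : Set M) := by rw [hspan]; trivial
    induction hy using Submodule.span_induction with
    | mem z hz =>
      exact Submodule.subset_span (Finset.mem_coe.2 (Finset.mem_image_of_mem _ hz))
    | zero => rw [map_zero]; exact Submodule.zero_mem _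
    | add y z _ _ h1 h2 => rw [map_add]; exact Submodule.add_mem _ h1 h2
    | smul a z _ h1 =>
      rw [map_smul]
      have : a • (m • (⊤ : Submodule A M)).mkQ z =
        (algebraMap A (A ⧸ m) a) • (m • (⊤ : Submodule A M)).mkQ z := by
        rw [algebraMap_smul]
      rw [this]
      exact Submodule.smul_mem _ _ h1
  have hfin : Module.Finite (A ⧸ m) V := ⟨⟨t, htop⟩⟩
  have hrank : Module.finrank (A ⧸ m) V < n := by
    have h1 := finrank_span_finset_le_card (R := A ⧸ m) t
    rw [Set.finrank, htop, finrank_top] at h1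
    omega
  let b := Module.finBasis (A ⧸ m) V
  let τ : Λ → (V →ₗ[A ⧸ m] V) := fun h =>
    LinearMap.extendScalarsOfSurjective hsur
      (Submodule.mapQ _ _ (ρ h) (smul_top_stable m (ρ h)))
  have hτ : ∀ h y, τ h (q y) = q (ρ h y) := fun h y => rfl
  have hτ1 : τ 1 = 1 := by
    apply LinearMap.ext
    intro v
    obtain ⟨y, rfl⟩ := (m • (⊤ : Submodule A M)).mkQ_surjective v
    show τ 1 (q y) = _
    rw [hτ, map_one]
    rfl
  have hτm : ∀ h k, τ (h * k) = τ h * τ k := by
    intro h k
    apply LinearMap.ext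
    intro v
    obtain ⟨y, rfl⟩ := (m • (⊤ : Submodule A M)).mkQ_surjective v
    show τ (h * k) (q y) = τ h (τ k (q y))
    rw [hτ, hτ, hτ, map_mul]
    rfl
  let T : Λ →* Module.End (A ⧸ m) V := { toFun := τ, map_one' := hτ1, map_mul' := hτm }
  let σ : Λ →* (Matrix (Fin (Module.finrank (A ⧸ m) V)) (Fin (Module.finrank (A ⧸ m) V)) (A ⧸ m))ˣ :=
    (((LinearMap.toMatrixAlgEquiv b).toRingEquiv.toRingHom.toMonoidHom).comp T).toHomUnits
  have hσ : σ = 1 := trivial_ring hn (by simpa using hrank) hfg hq σ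
  have h1 : LinearMap.toMatrixAlgEquiv b (τ g) = 1 := by
    have h2 : (σ g).val = 1 := by rw [hσ]; rfl
    exact h2
  have h2 : τ g = 1 := by
    apply (LinearMap.toMatrixAlgEquiv b).injective
    rw [h1, map_one]
  have h3 : q (ρ g x) = q x := by rw [← hτ, h2]; rfl
  rw [← sub_eq_zero, ← map_sub] at h3
  exact (Submodule.Quotient.mk_eq_zero _).1 h3

lemma mod_pow (hn : 3 ≤ n) (hfg : Group.FG Λ) (hq : FQ n Λ) {A : Type} [CommRing A]
    {M : Type} [AddCommGroup M] [Module A M] (s : Finset M) (hs : s.card < n)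
    (hspan : Submodule.span A (s : Set M) = ⊤) (ρ : Λ →* Module.End A M) (m : Ideal A)
    (hm : m.IsMaximal) (k : ℕ) : ∀ (g : Λ) (x : M), ρ g x - x ∈ m ^ (k + 1) • (⊤ : Submodule A M) := by
  induction k with
  | zero =>
    intro g x
    rw [zero_add, pow_one]
    exact mod_one hn hfg hq s hs hspan ρ m hm g x
  | succ k ih =>
    intro g x
    let N : Submodule A M := m ^ (k + 1 + 1) • (⊤ : Submodule A M)
    let f : Λ →* Multiplicative (M ⧸ N) :=
      MonoidHom.mk' (fun h => Multiplicative.ofAdd (N.mkQ (ρ h x - x))) (by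
        intro a b
        rw [← ofAdd_add, ← map_add]
        congr 1
        rw [← sub_eq_zero, ← map_sub]
        apply (Submodule.Quotient.mk_eq_zero _).2
        have h1 : ρ (a * b) x - x - (ρ a x - x + (ρ b x - x)) =
            ρ a (ρ b x - x) - (ρ b x - x) := by
          rw [map_mul, Module.End.mul_apply, map_sub]
          abel
        rw [h1]
        have h2 := sub_smul_mem (m ^ (k + 1)) m (ρ a) (fun y => mod_one hn hfg hq s hs hspan ρ m hm a y)
          (ρ b x - x) (ih b x)
        rw [← pow_succ] at h2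
        exact h2)
    have hf : f = 1 := hom_comm hn hfg hq f
    have h1 : f g = 1 := by rw [hf]; rfl
    have h2 : N.mkQ (ρ g x - x) = 0 := congrArg Multiplicative.toAdd h1
    exact (Submodule.Quotient.mk_eq_zero _).1 h2

lemma krull_mod {A : Type} [CommRing A] [IsNoetherianRing A] {M : Type} [AddCommGroup M]
    [Module A M] [Module.Finite A M] (x : M)
    (hx : ∀ m : Ideal A, m.IsMaximal → ∀ k : ℕ, x ∈ m ^ (k + 1) • (⊤ : Submodule A M)) : x = 0 := by
  by_contra hne
  have h1 : Ideal.span {x' : A | x' • x = 0} ≠ ⊤ := by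
    have h2 : {x' : A | x' • x = 0} = (LinearMap.ker (LinearMap.toSpanSingleton A M x) : Set A) := by
      ext a; simp
    rw [h2]
    intro h3
    have h4 : (1 : A) ∈ Ideal.span (LinearMap.ker (LinearMap.toSpanSingleton A M x) : Set A) := by
      rw [h3]; trivial
    rw [Ideal.span, Submodule.span_eq] at h4
    apply hne
    simpa using h4
  obtain ⟨m, hm, hle⟩ := Ideal.exists_le_maximal _ h1
  have h2 : x ∈ (⨅ i : ℕ, m ^ i • (⊤ : Submodule A M)) := by
    rw [Submodule.mem_iInf]
    intro i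
    cases i with
    | zero => rw [pow_zero, one_smul]; trivial
    | succ i => exact hx m hm i
  obtain ⟨r, hr⟩ := (Ideal.mem_iInf_smul_pow_eq_bot_iff m x).1 h2
  have h3 : (1 - (r : A)) ∈ Ideal.span {x' : A | x' • x = 0} := by
    apply Ideal.subset_span
    show (1 - (r : A)) • x = 0
    rw [sub_smul, one_smul]
    rw [show ((r : A)) • x = x from hr, sub_self]
  have h4 := hle h3
  have h5 : (1 : A) ∈ m := by
    have := m.add_mem h4 r.2
    rwa [sub_add_cancel] at this
  exact hm.ne_top ((Ideal.eq_top_iff_one m).2 h5)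

theorem mod_ft (hn : 3 ≤ n) (hfg : Group.FG Λ) (hq : FQ n Λ) {A : Type} [CommRing A]
    [Algebra.FiniteType ℤ A]
    {M : Type} [AddCommGroup M] [Module A M] (s : Finset M) (hs : s.card < n)
    (hspan : Submodule.span A (s : Set M) = ⊤) (ρ : Λ →* Module.End A M) (g : Λ) (x : M) :
    ρ g x = x := by
  have hN : IsNoetherianRing A := Algebra.FiniteType.isNoetherianRing ℤ A
  have hF : Module.Finite A M := ⟨⟨s, hspan⟩⟩
  rw [← sub_eq_zero]
  apply krull_mod (A := A)
  intro m hm k
  exact mod_pow hn hfg hq s hs hspan ρ m hm k g x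

end mod

end Pool.Agent.L5helper41.GR
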