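import Pool.Agent.L5helper41.GR.Ring

set_option autoImplicit false
set_option linter.unusedSectionVars false

/-!
Linear representations over rings of positive characteristic.
-/

namespace Pool.Agent.L5helper41.GR

open Matrix Pool.Agent.Helper460_CSP Module

section pos

variable {n : ℕ} {ι : Type} [Fintype ι] [DecidableEq ι] {Λ : Type} [Group Λ]

/-- the bound -/
noncomputable def bd (n d p : ℕ) : ℕ := Nat.card (SpecialLinearGroup (Fin n) (ZMod (expo d p)))

lemma charP_of_prime {K : Type} [Field K] {p : ℕ} (hp : p.Prime) (h : (p : K) = 0) : CharP K p := by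
  obtain ⟨q, hq⟩ := CharP.exists K
  have h1 : q ∣ p := (CharP.cast_eq_zero_iff K q p).1 h
  rcases (Nat.dvd_prime hp).1 h1 with h2 | h2
  · exact absurd h2 (CharP.char_ne_one K q)
  · rwa [h2] at hq

/-- the bound over a finitely generated domain of characteristic `p` -/
theorem domain_bound (hn : 3 ≤ n) (hq : FQ n Λ) {B : Type} [CommRing B] [IsDomain B]
    [Algebra.FiniteType ℤ B] (p : ℕ) (hp : p.Prime) (hpB : (p : B) = 0)
    (ψ : Λ →* (Matrix ι ι B)ˣ) : Finite ψ.range ∧ Nat.card ψ.range ≤ bd n (Fintype.card ι) p := by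
  classical
  have key : ∀ T : Finset (Matrix ι ι B)ˣ, (T : Set (Matrix ι ι B)ˣ) ⊆ (ψ.range : Set _) →
      T.card ≤ bd n (Fintype.card ι) p := by
    intro T hT
    have hex : ∀ x y : (Matrix ι ι B)ˣ, ∃ e : B, e ≠ 0 ∧ (x ≠ y → ∃ a b, e = x.val a b - y.val a b) := by
      intro x y
      by_cases h : x = y
      · exact ⟨1, one_ne_zero, fun h' => absurd h h'⟩
      · have h1 : ∃ a b, x.val a b ≠ y.val a b := by
          by_contra hcon
          push Not at hcon
          exact h (Units.ext (Matrix.ext hcon))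
        obtain ⟨a, b, hab⟩ := h1
        exact ⟨x.val a b - y.val a b, sub_ne_zero.2 hab, fun _ => ⟨a, b, rfl⟩⟩
    choose e he0 he using hex
    obtain ⟨m, hm, hmP⟩ := exists_avoid B (∏ x ∈ T, ∏ y ∈ T, e x y)
      (Finset.prod_ne_zero_iff.2 fun x _ => Finset.prod_ne_zero_iff.2 fun y _ => he0 x y)
    let _ : Field (B ⧸ m) := Ideal.Quotient.field m
    have hfin : Finite (B ⧸ m) := residue_finite B m
    have hcp : CharP (B ⧸ m) p := charP_of_prime hp (by
      have := congrArg (Ideal.Quotient.mk m) hpB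
      rwa [map_natCast, map_zero] at this)
    obtain ⟨σ, hσ⟩ := transfer hq ((red (Ideal.Quotient.mk m)).comp ψ) inferInstance
    have hb := bound_of_field p hp hn σ
    rw [hσ] at hb
    have hinj : Set.InjOn (red (ι := ι) (Ideal.Quotient.mk m)) (T : Set (Matrix ι ι B)ˣ) := by
      intro x hx y hy hxy
      by_contra hne
      obtain ⟨a, b, hab⟩ := he x y hne
      apply hmP
      have h1 : e x y ∈ m := by
        rw [hab, ← Ideal.Quotient.eq, ← red_apply, ← red_apply, hxy]
      have h2 : e x y ∣ ∏ x ∈ T, ∏ y ∈ T, e x y :=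
        (Finset.dvd_prod_of_mem (e x) hy).trans
          (Finset.dvd_prod_of_mem (fun x => ∏ y ∈ T, e x y) hx)
      exact Ideal.mem_of_dvd m h2 h1
    have h3 : T.card ≤ Nat.card ((red (Ideal.Quotient.mk m)).comp ψ).range := by
      rw [← Finset.card_image_of_injOn hinj]
      have h4 : ((T.image (red (ι := ι) (Ideal.Quotient.mk m)) : Finset _) : Set _) ⊆
          (((red (Ideal.Quotient.mk m)).comp ψ).range : Set (Matrix ι ι (B ⧸ m))ˣ) := by
        intro z hz
        rw [Finset.coe_image] at hz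
        obtain ⟨x, hx, rfl⟩ := hz
        obtain ⟨g, hg⟩ := hT hx
        exact ⟨g, by rw [MonoidHom.comp_apply, hg]⟩
      have h5 := Set.ncard_le_ncard h4 (Set.toFinite _)
      rw [Set.ncard_coe_finset] at h5
      exact h5
    exact h3.trans hb.2
  have hfin : (ψ.range : Set (Matrix ι ι B)ˣ).Finite := by
    by_contra hcon
    obtain ⟨T, hT, hc⟩ := Set.Infinite.exists_subset_card_eq hcon (bd n (Fintype.card ι) p + 1)
    have := key T hT
    omega
  refine ⟨hfin.to_subtype, ?_⟩
  have h1 := key hfin.toFinset (by rw [hfin.coe_toFinset])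
  rwa [← Set.ncard_eq_toFinset_card _ hfin] at h1

lemma finiteType_of_surj (A B : Type) [CommRing A] [CommRing B] [Algebra.FiniteType ℤ A]
    (f : A →+* B) (hf : Function.Surjective f) : Algebra.FiniteType ℤ B :=
  Algebra.FiniteType.of_surjective f.toIntAlgHom hf

lemma finiteType_quot (A : Type) [CommRing A] [Algebra.FiniteType ℤ A] (P : Ideal A) :
    @Algebra.FiniteType ℤ (A ⧸ P) _ _ (Ring.toIntAlgebra (A ⧸ P)) :=
  finiteType_of_surj A (A ⧸ P) (Ideal.Quotient.mk P) Ideal.Quotient.mk_surjective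

lemma one_add_pow' {S : Type} [Ring S] (Z : S) (hZ : Z * Z = 0) (m : ℕ) :
    (1 + Z) ^ m = 1 + (m : S) * Z := by
  induction m with
  | zero => simp
  | succ m ih =>
    rw [pow_succ, ih, add_mul, one_mul, mul_add, mul_one, mul_assoc, hZ, mul_zero, add_zero]
    push_cast
    noncomm_ring

lemma pow_eq_one_of_cong {R : Type} [CommRing R] (J : Ideal R) (j : ℕ) (hj : 1 ≤ j) (N : ℕ)
    (hN : (N : R) = 0) (A : (Matrix ι ι R)ˣ) (hA : ∀ a b, (A.val - 1) a b ∈ J ^ j) :
    red (Ideal.Quotient.mk (J ^ (j + 1))) A ^ N = 1 := by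
  set C := red (ι := ι) (Ideal.Quotient.mk (J ^ (j + 1))) A with hC
  have hCe : ∀ a b, (C.val - 1) a b = Ideal.Quotient.mk (J ^ (j + 1)) ((A.val - 1) a b) := by
    intro a b
    rw [Matrix.sub_apply, Matrix.sub_apply, map_sub, hC, red_apply, Matrix.one_apply,
      Matrix.one_apply]
    split_ifs
    · rw [map_one]
    · rw [map_zero]
  have hZ : (C.val - 1) * (C.val - 1) = 0 := by
    ext a b
    rw [Matrix.mul_apply, Matrix.zero_apply]
    apply Finset.sum_eq_zero
    intro c _
    rw [hCe, hCe, ← map_mul, Ideal.Quotient.eq_zero_iff_mem]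
    have h1 : (A.val - 1) a c * (A.val - 1) c b ∈ J ^ j * J ^ j := Ideal.mul_mem_mul (hA a c) (hA c b)
    rw [← pow_add] at h1
    exact Ideal.pow_le_pow_right (by omega) h1
  apply Units.ext
  rw [Units.val_pow_eq_pow_val, Units.val_one]
  have h2 := one_add_pow' (C.val - 1) hZ N
  rw [add_sub_cancel] at h2
  rw [h2]
  have h3 : ((N : ℕ) : Matrix ι ι (R ⧸ J ^ (j + 1))) = 0 := by
    have h4 : ((N : ℕ) : R ⧸ J ^ (j + 1)) = 0 := by
      rw [← map_natCast (Ideal.Quotient.mk (J ^ (j + 1))), hN, map_zero]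
    have h5 := congrArg (Matrix.scalar ι) h4
    rwa [map_natCast, map_zero] at h5
  rw [h3, zero_mul, add_zero]

/-- finiteness over finitely generated rings of positive characteristic -/
theorem finite_ft (hn : 3 ≤ n) (hfg : Group.FG Λ) (hq : FQ n Λ) {A : Type} [CommRing A]
    [Algebra.FiniteType ℤ A] (N : ℕ) (hN0 : N ≠ 0) (hN : (N : A) = 0)
    (ψ : Λ →* (Matrix ι ι A)ˣ) : Finite ψ.range := by
  have hNo : IsNoetherianRing A := Algebra.FiniteType.isNoetherianRing ℤ A
  -- the kernels modulo ideals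
  have hmem : ∀ (J : Ideal A) (g : Λ), g ∈ ((red (Ideal.Quotient.mk J)).comp ψ).ker ↔
      ∀ a b, ((ψ g).val - 1) a b ∈ J := by
    intro J g
    rw [MonoidHom.mem_ker, MonoidHom.comp_apply, red_eq_one_iff]
  have hprime : ∀ P : Ideal A, P ∈ minimalPrimes A →
      ((red (Ideal.Quotient.mk P)).comp ψ).ker.FiniteIndex := by
    intro P hP
    have hPp : P.IsPrime := Ideal.IsMinimalPrime.isPrime hP
    have hdom : IsDomain (A ⧸ P) := inferInstance
    have hftP : @Algebra.FiniteType ℤ (A ⧸ P) _ _ (Ring.toIntAlgebra (A ⧸ P)) :=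
      finiteType_quot A P
    have hN' : ((N : ℕ) : A ⧸ P) = 0 := by
      rw [← map_natCast (Ideal.Quotient.mk P), hN, map_zero]
    obtain ⟨q, hqc⟩ := CharP.exists (A ⧸ P)
    have hqN : q ∣ N := (CharP.cast_eq_zero_iff (A ⧸ P) q N).1 hN'
    have hq0 : q ≠ 0 := by
      rintro rfl
      exact hN0 (Nat.eq_zero_of_zero_dvd hqN)
    have hqp : q.Prime := (CharP.char_is_prime_or_zero (A ⧸ P) q).resolve_right hq0
    have hb := (domain_bound hn hq q hqp (CharP.cast_eq_zero (A ⧸ P) q)
      ((red (Ideal.Quotient.mk P)).comp ψ)).1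
    refine ⟨?_⟩
    rw [Subgroup.index_ker]
    exact Nat.card_pos.ne'
  have hbase : ((red (Ideal.Quotient.mk (nilradical A))).comp ψ).ker.FiniteIndex := by
    have hfinP : Finite (minimalPrimes A) := (minimalPrimes.finite_of_isNoetherianRing A).to_subtype
    have h1 : (⨅ P : minimalPrimes A, ((red (Ideal.Quotient.mk P.1)).comp ψ).ker).FiniteIndex :=
      Subgroup.finiteIndex_iInf fun P => hprime P.1 P.2
    refine Subgroup.finiteIndex_of_le (H := ⨅ P : minimalPrimes A,
      ((red (Ideal.Quotient.mk P.1)).comp ψ).ker) ?_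
    intro g hg
    rw [hmem]
    intro a b
    have h2 : nilradical A = sInf (minimalPrimes A) := by
      rw [nilradical, ← Ideal.sInf_minimalPrimes]; rfl
    rw [h2, Ideal.mem_sInf]
    intro P hP
    rw [Subgroup.mem_iInf] at hg
    exact (hmem P g).1 (hg ⟨P, hP⟩) a b
  have hfgi : Group.FG Λ := hfg
  have hstep : ∀ k : ℕ, ((red (Ideal.Quotient.mk (nilradical A ^ (k + 1)))).comp ψ).ker.FiniteIndex := by
    intro k
    induction k with
    | zero => rw [zero_add, pow_one]; exact hbase
    | succ k ih =>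
      set G := ((red (Ideal.Quotient.mk (nilradical A ^ (k + 1)))).comp ψ).ker with hG
      have hGfg : Group.FG G := Subgroup.fg_of_index_ne_zero G
      set φ := (red (ι := ι) (Ideal.Quotient.mk (nilradical A ^ (k + 1 + 1)))).comp ψ with hφ
      let θ : G →* (Matrix ι ι (A ⧸ nilradical A ^ (k + 1 + 1)))ˣ := φ.comp G.subtype
      have hfr : Finite θ.range := by
        have hcomm : ∀ x y : θ.range, x * y = y * x := by
          rintro ⟨_, g, rfl⟩ ⟨_, h, rfl⟩
          apply Subtype.ext
          exact red_commute (nilradical A) (k + 1) (by omega) _ _ ((hmem _ _).1 g.2)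
            ((hmem _ _).1 h.2)
        let _ : CommGroup θ.range := { (inferInstance : Group θ.range) with mul_comm := hcomm }
        have hfgr : Group.FG θ.range := Group.fg_range θ
        apply CommGroup.finite_of_fg_isMulTorsion
        rintro ⟨_, g, rfl⟩
        rw [isOfFinOrder_iff_pow_eq_one]
        refine ⟨N, Nat.pos_of_ne_zero hN0, ?_⟩
        apply Subtype.ext
        exact pow_eq_one_of_cong (nilradical A) (k + 1) (by omega) N hN _ ((hmem _ _).1 g.2)
      have h1 : φ.ker.relIndex G ≠ 0 := by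
        have h2 : φ.ker.relIndex G = θ.ker.index := by
          rw [Subgroup.relIndex]
          congr 1
        rw [h2, Subgroup.index_ker]
        exact Nat.card_pos.ne'
      have h3 : (φ.ker ⊓ G).index ≠ 0 := by
        rw [← Subgroup.relIndex_mul_index (inf_le_right : φ.ker ⊓ G ≤ G),
          Subgroup.inf_relIndex_right]
        exact Nat.mul_ne_zero h1 ih.index_ne_zero
      have h4 : (φ.ker ⊓ G).FiniteIndex := ⟨h3⟩
      exact Subgroup.finiteIndex_of_le (H := φ.ker ⊓ G) inf_le_left
  obtain ⟨s, hs⟩ := IsNoetherianRing.isNilpotent_nilradical A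
  have h5 : ψ.ker.FiniteIndex := by
    have := hstep s
    refine Subgroup.finiteIndex_of_le
      (H := ((red (Ideal.Quotient.mk (nilradical A ^ (s + 1)))).comp ψ).ker) ?_
    intro g hg
    rw [hmem] at hg
    rw [MonoidHom.mem_ker]
    apply Units.ext
    ext a b
    have h6 := hg a b
    rw [pow_succ, hs, zero_mul, Ideal.zero_eq_bot, Ideal.mem_bot, Matrix.sub_apply, sub_eq_zero] at h6
    exact h6
  have h7 := h5.index_ne_zero
  rw [Subgroup.index_ker] at h7
  exact Nat.finite_of_card_ne_zero h7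

/-- **Part 2**: finiteness over all commutative rings of positive characteristic -/
theorem finite_ring (hn : 3 ≤ n) (hfg : Group.FG Λ) (hq : FQ n Λ) {R : Type} [CommRing R] (N : ℕ)
    (hN0 : N ≠ 0) (hN : (N : R) = 0) (ρ : Λ →* (Matrix ι ι R)ˣ) : Finite ρ.range := by
  obtain ⟨A, hA, ψ, hψ⟩ := exists_ft hfg ρ
  have h1 : Finite ψ.range := finite_ft hn hfg hq N hN0 (by
    apply Subtype.ext
    have : (((N : ℕ) : A) : R) = ((N : ℕ) : R) := by push_cast; rfl
    rw [this, hN]; rfl) ψ
  have h2 : ∀ g h : Λ, ψ g = ψ h → ρ g = ρ h := by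
    intro g h hgh
    apply Units.ext
    ext a b
    rw [← hψ, ← hψ, hgh]
  choose r hr using fun x : ρ.range => x.2
  refine Finite.of_injective (fun x : ρ.range => (⟨ψ (r x), r x, rfl⟩ : ψ.range)) ?_
  intro x y hxy
  have h3 : ψ (r x) = ψ (r y) := congrArg Subtype.val hxy
  apply Subtype.ext
  rw [← hr x, ← hr y]
  exact h2 _ _ h3

/-- the bound over fields of characteristic `p` -/
theorem bound_field (hn : 3 ≤ n) (hfg : Group.FG Λ) (hq : FQ n Λ) {K : Type} [Field K] (p : ℕ)
    (hp : p.Prime) (hpK : (p : K) = 0) (ρ : Λ →* (Matrix ι ι K)ˣ) :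
    Finite ρ.range ∧ Nat.card ρ.range ≤ bd n (Fintype.card ι) p := by
  obtain ⟨A, hA, ψ, hψ⟩ := exists_ft hfg ρ
  obtain ⟨h1, h1'⟩ := domain_bound hn hq p hp (B := A) (by
    apply Subtype.ext
    have : (((p : ℕ) : A) : K) = ((p : ℕ) : K) := by push_cast; rfl
    rw [this, hpK]; rfl) ψ
  have h2 : ∀ g h : Λ, ψ g = ψ h → ρ g = ρ h := by
    intro g h hgh
    apply Units.ext
    ext a b
    rw [← hψ, ← hψ, hgh]
  choose r hr using fun x : ρ.range => x.2
  have hinj : Function.Injective (fun x : ρ.range => (⟨ψ (r x), r x, rfl⟩ : ψ.range)) := by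
    intro x y hxy
    have h3 : ψ (r x) = ψ (r y) := congrArg Subtype.val hxy
    apply Subtype.ext
    rw [← hr x, ← hr y]
    exact h2 _ _ h3
  exact ⟨Finite.of_injective _ hinj, (Nat.card_le_card_of_injective _ hinj).trans h1'⟩

end pos

end Pool.Agent.L5helper41.GR
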