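import Pool.Agent.L5helper41.GR.Alg
import Mathlib

/-!
Rigidity in characteristic zero.
-/

namespace Pool.Agent.L5helper41.GR

open Polynomial

section rigid

variable {n : ℕ} {Λ : Type} [Group Λ] {ι : Type} [Fintype ι] [DecidableEq ι]

theorem domain_alg (hn : 3 ≤ n) (hfg : Group.FG Λ) (hq : FQ n Λ) (Γ : Subgroup Λ)
    (hΓ : Γ.index ≠ 0) {A : Type} [CommRing A] [IsDomain A] [Algebra.FiniteType ℤ A]
    (ψ : Γ →* (Matrix ι ι A)ˣ) (γ : Γ) (i : ℕ) :
    ∃ P : ℤ[X], P ≠ 0 ∧ aeval ((ψ γ).val.charpoly.coeff i) P = 0 := by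
  apply alg_of_mod
  intro p hp Q hQ hpQ
  let B := A ⧸ Q
  have hBp : (p : B) = 0 := by
    have h1 := Ideal.Quotient.eq_zero_iff_mem.2 hpQ
    rwa [map_natCast] at h1
  let ψB : Γ →* (Matrix ι ι B)ˣ := (red (Ideal.Quotient.mk Q)).comp ψ
  have hfin : Finite ψB.range := finite_ring_sub hn hfg hq Γ hΓ p hp.ne_zero hBp ψB
  let M := Nat.card ψB.range
  have hM : 1 ≤ M := Nat.card_pos
  have hpow : (ψB γ) ^ M = 1 := by
    have h1 : (⟨ψB γ, γ, rfl⟩ : ψB.range) ^ M = 1 := pow_card_eq_one'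
    exact congrArg Subtype.val h1
  let K := AlgebraicClosure (FractionRing B)
  let j : A →+* K := (algebraMap (FractionRing B) K).comp
    ((algebraMap B (FractionRing B)).comp (Ideal.Quotient.mk Q))
  have hj : ∀ x : A, j x = 0 → x ∈ Q := by
    intro x hx
    have h1 : algebraMap B (FractionRing B) (Ideal.Quotient.mk Q x) = 0 :=
      (map_eq_zero (algebraMap (FractionRing B) K)).1 hx
    have h2 : Ideal.Quotient.mk Q x = 0 := by
      apply IsFractionRing.injective B (FractionRing B)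
      rw [h1, map_zero]
    exact Ideal.Quotient.eq_zero_iff_mem.1 h2
  have ha : ((ψ γ).val.map j) ^ M = 1 := by
    have h1 : (ψ γ).val.map j = ((algebraMap (FractionRing B) K).comp
        (algebraMap B (FractionRing B))).mapMatrix (ψB γ).val := by
      ext a b
      show j _ = _
      rfl
    rw [h1, ← map_pow, ← Units.val_pow_eq_pow_val, hpow, Units.val_one, map_one]
  have h3 := int_coeff ((ψ γ).val.map j) M hM ha i
  rw [Matrix.charpoly_map, coeff_map] at h3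
  obtain ⟨G, hG, hG2⟩ := h3
  refine ⟨G, hG, hj _ ?_⟩
  rw [← hG2, aeval_def, hom_eval₂]
  congr 1
  exact Subsingleton.elim _ _

theorem alg_ft (hn : 3 ≤ n) (hfg : Group.FG Λ) (hq : FQ n Λ) (Γ : Subgroup Λ)
    (hΓ : Γ.index ≠ 0) {A : Type} [CommRing A] [Algebra.FiniteType ℤ A]
    (ψ : Γ →* (Matrix ι ι A)ˣ) (γ : Γ) (i : ℕ) :
    ∃ P : ℤ[X], P ≠ 0 ∧ IsNilpotent (aeval ((ψ γ).val.charpoly.coeff i) P) := by
  classical
  have hNo : IsNoetherianRing A := Algebra.FiniteType.isNoetherianRing ℤ A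
  let c : A := (ψ γ).val.charpoly.coeff i
  have hex : ∀ 𝔭 : Ideal A, ∃ P : ℤ[X], P ≠ 0 ∧ (𝔭.IsPrime → aeval c P ∈ 𝔭) := by
    intro 𝔭
    by_cases h𝔭 : 𝔭.IsPrime
    · have hftP : @Algebra.FiniteType ℤ (A ⧸ 𝔭) _ _ (Ring.toIntAlgebra (A ⧸ 𝔭)) :=
        finiteType_quot A 𝔭
      obtain ⟨P, hP0, hP⟩ := domain_alg hn hfg hq Γ hΓ ((red (Ideal.Quotient.mk 𝔭)).comp ψ) γ i
      refine ⟨P, hP0, fun _ => ?_⟩
      have h1 : (((red (Ideal.Quotient.mk 𝔭)).comp ψ) γ).val =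
          (ψ γ).val.map (Ideal.Quotient.mk 𝔭) := by
        ext a b
        rfl
      rw [h1, Matrix.charpoly_map, coeff_map, aeval_def] at hP
      apply Ideal.Quotient.eq_zero_iff_mem.1
      rw [aeval_def, hom_eval₂, ← hP]
      congr 1
    · exact ⟨1, one_ne_zero, fun h => absurd h h𝔭⟩
  choose P hP0 hP using hex
  have hfinm := minimalPrimes.finite_of_isNoetherianRing A
  let F : ℤ[X] := ∏ 𝔭 ∈ hfinm.toFinset, P 𝔭
  have hF0 : F ≠ 0 := Finset.prod_ne_zero_iff.2 fun 𝔭 _ => hP0 𝔭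
  refine ⟨F, hF0, ?_⟩
  rw [← mem_nilradical, nilradical, ← Ideal.sInf_minimalPrimes, Ideal.mem_sInf]
  intro 𝔭 h𝔭
  have h2 : aeval c (P 𝔭) ∣ aeval c F := by
    apply _root_.map_dvd
    exact Finset.dvd_prod_of_mem _ (hfinm.mem_toFinset.2 h𝔭)
  exact Ideal.mem_of_dvd 𝔭 h2 (hP 𝔭 h𝔭.1.1)

/-- the universal representation over `K` -/
def univ (Δ : Type) [Group Δ] (ι : Type) [Fintype ι] [DecidableEq ι] (K : Type) [Field K] :
    Δ →* Matrix ι ι ((Δ →* (Matrix ι ι K)ˣ) → K) where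
  toFun := fun g => Matrix.of fun a b ρ => (ρ g).val a b
  map_one' := by
    ext a b ρ
    simp only [Matrix.of_apply, map_one, Units.val_one, Matrix.one_apply]
    split_ifs <;> rfl
  map_mul' := by
    intro x y
    ext a b ρ
    simp only [Matrix.of_apply, map_mul, Units.val_mul, Matrix.mul_apply, Finset.sum_apply,
      Pi.mul_apply]

/-- **Part 4**: rigidity in characteristic zero: every coefficient of the characteristic polynomial
of a fixed element takes only finitely many values, all of them algebraic -/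
theorem rigid (hn : 3 ≤ n) (hfg : Group.FG Λ) (hq : FQ n Λ) (Γ : Subgroup Λ)
    (hΓ : Γ.index ≠ 0) (K : Type) [Field K] (γ : Γ) (i : ℕ) :
    ∃ P : ℤ[X], P ≠ 0 ∧ ∀ ρ : Γ →* (Matrix ι ι K)ˣ, aeval ((ρ γ).val.charpoly.coeff i) P = 0 := by
  have hΓf : Γ.FiniteIndex := ⟨hΓ⟩
  have hΓfg : Group.FG Γ := Subgroup.fg_of_index_ne_zero Γ
  obtain ⟨A, hA, ψ, hψ⟩ := exists_ft hΓfg (univ Γ ι K).toHomUnits
  obtain ⟨F, hF0, hF⟩ := alg_ft hn hfg hq Γ hΓ ψ γ i
  refine ⟨F, hF0, ?_⟩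
  intro ρ
  let j : A →+* K := (Pi.evalRingHom (fun _ : Γ →* (Matrix ι ι K)ˣ => K) ρ).comp A.subtype
  have hj : (ψ γ).val.map j = (ρ γ).val := by
    ext a b
    show (((ψ γ).val a b : A) : (Γ →* (Matrix ι ι K)ˣ) → K) ρ = _
    rw [hψ]
    rfl
  have h4 : j (aeval ((ψ γ).val.charpoly.coeff i) F) = 0 := (hF.map j).eq_zero
  rw [aeval_def, hom_eval₂] at h4
  have h5 : j ((ψ γ).val.charpoly.coeff i) = (ρ γ).val.charpoly.coeff i := by
    rw [← hj, Matrix.charpoly_map, coeff_map]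
  rw [h5] at h4
  rw [aeval_def, ← h4]
  congr 1

end rigid

end Pool.Agent.L5helper41.GR
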