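import Pool.Agent.L5helper41.GR.SLrep

set_option autoImplicit false
set_option linter.style.haveILetI false

/-!
Linear groups over finitely generated commutative rings and their finite quotients.
-/

namespace Pool.Agent.L5helper41.GR

open Matrix Pool.Agent.Helper460_CSP Module

section alg

universe u

/-- a field which is finitely generated as an abelian group is finite -/
theorem finite_field_of_fg (F : Type u) [Field F] [Module.Finite ℤ F] : Finite F := by
  obtain ⟨q, hq⟩ := CharP.exists F
  rcases CharP.char_is_prime_or_zero F q with hp | hp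
  · haveI : Fact q.Prime := ⟨hp⟩
    let _ : Algebra (ZMod q) F := ZMod.algebra F q
    haveI : Module.Finite (ZMod q) F := Module.Finite.of_restrictScalars_finite ℤ (ZMod q) F
    exact Module.finite_of_finite (ZMod q)
  · subst hp
    exfalso
    haveI : CharZero F := CharP.charP_to_charZero F
    haveI : Algebra.IsIntegral ℤ F := Algebra.IsIntegral.of_finite ℤ F
    have h1 : IsIntegral ℤ (algebraMap ℚ F (2 : ℚ)⁻¹) := Algebra.IsIntegral.isIntegral _
    have h2 : IsIntegral ℤ ((2 : ℚ)⁻¹) :=
      (isIntegral_algebraMap_iff (algebraMap ℚ F).injective).1 h1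
    obtain ⟨z, hz⟩ := IsIntegrallyClosed.isIntegral_iff.1 h2
    have hz' : (z : ℚ) = (2 : ℚ)⁻¹ := by simpa using hz
    have h3 : (2 * z : ℤ) = 1 := by
      have : ((2 * z : ℤ) : ℚ) = 1 := by
        push_cast
        rw [hz']; norm_num
      exact_mod_cast this
    omega

theorem jacobson_int : IsJacobsonRing ℤ := by
  rw [isJacobsonRing_iff_prime_eq]
  intro P hP
  by_cases h : P = ⊥
  · subst h
    rw [eq_bot_iff]
    intro x hx
    rw [Ideal.mem_jacobson_bot] at hx
    have h1 := hx x
    rw [Int.isUnit_iff] at h1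
    rw [Ideal.mem_bot]
    rcases h1 with h1 | h1
    · have : x * x = 0 := by linarith
      exact mul_self_eq_zero.1 this
    · nlinarith [mul_self_nonneg x]
  · haveI : P.IsMaximal := hP.isMaximal h
    exact Ideal.jacobson_eq_self_of_isMaximal

/-- residue fields of finitely generated rings are finite -/
theorem residue_finite (R : Type u) [CommRing R] [Algebra.FiniteType ℤ R] (m : Ideal R)
    [hm : m.IsMaximal] : Finite (R ⧸ m) := by
  have : IsJacobsonRing ℤ := jacobson_int
  let i1 : Field (R ⧸ m) := Ideal.Quotient.field m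
  have h2 : Module.Finite ℤ (R ⧸ m) :=
    @finite_of_finite_type_of_isJacobsonRing ℤ (R ⧸ m) _ i1 (Ideal.Quotient.algebra ℤ (I := m)) _
      (inferInstance)
  exact finite_field_of_fg (R ⧸ m)

/-- finitely generated rings are Jacobson rings -/
theorem jacobson_of_finiteType (R : Type u) [CommRing R] [Algebra.FiniteType ℤ R] :
    IsJacobsonRing R := by
  have : IsJacobsonRing ℤ := jacobson_int
  exact isJacobsonRing_of_finiteType (A := ℤ) (B := R)

/-- in a finitely generated domain a nonzero element avoids some maximal ideal -/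
theorem exists_avoid (R : Type u) [CommRing R] [IsDomain R] [Algebra.FiniteType ℤ R] (x : R)
    (hx : x ≠ 0) : ∃ m : Ideal R, m.IsMaximal ∧ x ∉ m := by
  have hJ := jacobson_of_finiteType R
  have h1 : (⊥ : Ideal R).jacobson = ⊥ :=
    isJacobsonRing_iff_prime_eq.1 hJ ⊥ Ideal.isPrime_bot
  by_contra hcon
  push Not at hcon
  apply hx
  have h2 : x ∈ (⊥ : Ideal R).jacobson := by
    unfold Ideal.jacobson
    rw [Ideal.mem_sInf]
    rintro m ⟨-, hm⟩
    exact hcon m hm
  rw [h1] at h2
  exact h2

/-- Krull: an element of all powers of all maximal ideals is zero -/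
theorem krull (R : Type u) [CommRing R] [IsNoetherianRing R] (x : R)
    (hx : ∀ m : Ideal R, m.IsMaximal → ∀ k : ℕ, x ∈ m ^ k) : x = 0 := by
  by_contra hx0
  have h1 : Submodule.annihilator (R ∙ x) ≠ ⊤ := by
    intro h
    apply hx0
    have h2 : (1 : R) ∈ Submodule.annihilator (R ∙ x) := h ▸ Submodule.mem_top
    have h3 := Submodule.mem_annihilator.1 h2 x (Submodule.mem_span_singleton_self x)
    rwa [one_smul] at h3
  obtain ⟨m, hm, hle⟩ := Ideal.exists_le_maximal _ h1
  have h2 : x ∈ (⨅ i : ℕ, m ^ i • (⊤ : Submodule R R)) := by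
    rw [Submodule.mem_iInf]
    intro i
    rw [smul_eq_mul, Ideal.mul_top]
    exact hx m hm i
  obtain ⟨r, hr⟩ := (Ideal.mem_iInf_smul_pow_eq_bot_iff m x).1 h2
  have h3 : (1 - (r : R)) ∈ Submodule.annihilator (R ∙ x) := by
    rw [Submodule.mem_annihilator]
    intro y hy
    obtain ⟨c, rfl⟩ := Submodule.mem_span_singleton.1 hy
    rw [smul_comm, sub_smul, one_smul, hr, sub_self, smul_zero]
  apply hm.ne_top
  rw [Ideal.eq_top_iff_one]
  have h4 := m.add_mem (hle h3) r.2
  rwa [sub_add_cancel] at h4

end alg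



section nilp

variable {n : ℕ} {ι : Type} [Fintype ι] [DecidableEq ι]

/-- reduction of invertible matrices -/
def red {R S : Type} [CommRing R] [CommRing S] (φ : R →+* S) :
    (Matrix ι ι R)ˣ →* (Matrix ι ι S)ˣ := Units.map (φ.mapMatrix (m := ι)).toMonoidHom

lemma red_apply {R S : Type} [CommRing R] [CommRing S] (φ : R →+* S) (A : (Matrix ι ι R)ˣ)
    (a b : ι) : (red φ A).val a b = φ (A.val a b) := rfl

lemma red_eq_one_iff {R : Type} [CommRing R] (I : Ideal R) (A : (Matrix ι ι R)ˣ) :
    red (Ideal.Quotient.mk I) A = 1 ↔ ∀ a b, (A.val - 1) a b ∈ I := by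
  constructor
  · intro h a b
    have h1 : (red (Ideal.Quotient.mk I) A).val a b = (1 : (Matrix ι ι (R ⧸ I))ˣ).val a b := by
      rw [h]
    rw [red_apply, Units.val_one] at h1
    rw [← Ideal.Quotient.eq_zero_iff_mem, Matrix.sub_apply, map_sub, h1, sub_eq_zero,
      Matrix.one_apply, Matrix.one_apply]
    split_ifs
    · rw [map_one]
    · rw [map_zero]
  · intro h
    apply Units.ext
    ext a b
    rw [red_apply, Units.val_one]
    have h1 := h a b
    rw [← Ideal.Quotient.eq_zero_iff_mem, Matrix.sub_apply, map_sub, sub_eq_zero] at h1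
    rw [h1, Matrix.one_apply, Matrix.one_apply]
    split_ifs
    · rw [map_one]
    · rw [map_zero]

lemma mul_mem_entries {R : Type} [CommRing R] {I J : Ideal R} {X Y : Matrix ι ι R}
    (hX : ∀ a b, X a b ∈ I) (hY : ∀ a b, Y a b ∈ J) (a b : ι) : (X * Y) a b ∈ I * J := by
  rw [Matrix.mul_apply]
  exact Ideal.sum_mem _ fun c _ => Ideal.mul_mem_mul (hX a c) (hY c b)

/-- two matrices which are congruent to `1` modulo `J ^ j` commute modulo `J ^ (j + 1)` -/
lemma red_commute {R : Type} [CommRing R] (J : Ideal R) (j : ℕ) (hj : 1 ≤ j)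
    (A B : (Matrix ι ι R)ˣ) (hA : ∀ a b, (A.val - 1) a b ∈ J ^ j)
    (hB : ∀ a b, (B.val - 1) a b ∈ J ^ j) :
    red (Ideal.Quotient.mk (J ^ (j + 1))) A * red (Ideal.Quotient.mk (J ^ (j + 1))) B =
      red (Ideal.Quotient.mk (J ^ (j + 1))) B * red (Ideal.Quotient.mk (J ^ (j + 1))) A := by
  rw [← map_mul, ← map_mul]
  apply Units.ext
  ext a b
  rw [red_apply, red_apply, Ideal.Quotient.eq, ← Matrix.sub_apply]
  have e : (A * B).val - (B * A).val =
      (A.val - 1) * (B.val - 1) - (B.val - 1) * (A.val - 1) := by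
    rw [Units.val_mul, Units.val_mul]
    noncomm_ring
  rw [e, Matrix.sub_apply]
  have hle : J ^ j * J ^ j ≤ J ^ (j + 1) := by
    rw [← pow_add]
    exact Ideal.pow_le_pow_right (by omega)
  exact Ideal.sub_mem _ (hle (mul_mem_entries hA hB a b)) (hle (mul_mem_entries hB hA a b))

/-- `SL(n, ℤ)` has no nontrivial homomorphisms to the congruence subgroup of a nilpotent ideal -/
theorem trivial_of_nilpotent (hn : 3 ≤ n) {S : Type} [CommRing S] (J : Ideal S) (k : ℕ)
    (hJ : J ^ k = ⊥) (σ : SpecialLinearGroup (Fin n) ℤ →* (Matrix ι ι S)ˣ)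
    (h : ∀ g a b, ((σ g).val - 1) a b ∈ J) : σ = 1 := by
  have key : ∀ j : ℕ, ∀ g a b, ((σ g).val - 1) a b ∈ J ^ (j + 1) := by
    intro j
    induction j with
    | zero => intro g a b; rw [zero_add, pow_one]; exact h g a b
    | succ j ih =>
      have h1 : (red (Ideal.Quotient.mk (J ^ (j + 1 + 1)))).comp σ = 1 := by
        apply eq_one_of_tv hn
        intro i l hil
        obtain ⟨c, hci, hcl⟩ := exists_third hn i l
        rw [tv_commutator i c l hci.symm hcl hil, map_mul, map_mul, map_mul, map_inv, map_inv,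
          MonoidHom.comp_apply, MonoidHom.comp_apply,
          red_commute J (j + 1) (by omega) _ _ (ih _) (ih _)]
        group
      intro g
      rw [← red_eq_one_iff]
      exact DFunLike.congr_fun h1 g
  ext1 g
  rw [MonoidHom.one_apply]
  apply Units.ext
  ext a b
  have h2 : ((σ g).val - 1) a b ∈ J ^ k :=
    Ideal.pow_le_pow_right (by omega) (key k g a b)
  rw [hJ, Ideal.mem_bot, Matrix.sub_apply, sub_eq_zero] at h2
  exact h2

end nilp

section genus

variable {n : ℕ} {ι : Type} [Fintype ι] [DecidableEq ι] {Λ : Type} [Group Λ]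

/-- every finite quotient of `Λ` is a quotient of `SL(n, ℤ)` -/
def FQ (n : ℕ) (Λ : Type) [Group Λ] : Prop :=
  ∀ (Q : Type) [Group Q] [Finite Q], (∃ f : Λ →* Q, Function.Surjective f) →
    ∃ f : SpecialLinearGroup (Fin n) ℤ →* Q, Function.Surjective f

lemma transfer (hq : FQ n Λ) {G : Type} [Group G] (ψ : Λ →* G) (hf : Finite ψ.range) :
    ∃ σ : SpecialLinearGroup (Fin n) ℤ →* G, σ.range = ψ.range := by
  obtain ⟨f, hf'⟩ := hq ψ.range ⟨ψ.rangeRestrict, ψ.rangeRestrict_surjective⟩
  refine ⟨ψ.range.subtype.comp f, ?_⟩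
  rw [MonoidHom.range_comp, MonoidHom.range_eq_top.2 hf', ← MonoidHom.range_eq_map,
    Subgroup.range_subtype]

/-- triviality in dimension smaller than `n` over finitely generated rings -/
theorem trivial_ft (hn : 3 ≤ n) (hd : Fintype.card ι < n) (hq : FQ n Λ) {A : Type} [CommRing A]
    [Algebra.FiniteType ℤ A] (ψ : Λ →* (Matrix ι ι A)ˣ) : ψ = 1 := by
  have hN : IsNoetherianRing A := Algebra.FiniteType.isNoetherianRing ℤ A
  ext1 g
  rw [MonoidHom.one_apply]
  apply Units.ext
  ext a b
  have key : (ψ g).val a b - (1 : Matrix ι ι A) a b = 0 := by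
    apply krull A
    intro m hm k
    have hfin : Finite (A ⧸ m) := residue_finite A m
    have hfin2 : Finite (A ⧸ m ^ k) := Ideal.finite_quotient_pow (IsNoetherian.noetherian m) k
    have hfr : Finite ((red (Ideal.Quotient.mk (m ^ k))).comp ψ).range := inferInstance
    obtain ⟨σ, hσ⟩ := transfer hq ((red (Ideal.Quotient.mk (m ^ k))).comp ψ) hfr
    have hσ1 : σ = 1 := by
      rcases Nat.eq_zero_or_pos k with hk | hk
      · subst hk
        ext1 x
        have : Subsingleton (A ⧸ m ^ 0) := by
          rw [pow_zero, Ideal.one_eq_top]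
          exact Ideal.Quotient.subsingleton_iff.2 rfl
        apply Units.ext
        ext a b
        exact Subsingleton.elim _ _
      · let J : Ideal (A ⧸ m ^ k) := m.map (Ideal.Quotient.mk (m ^ k))
        apply trivial_of_nilpotent hn J k
        · rw [← Ideal.map_pow, Ideal.map_quotient_self]
        · let _ : Field (A ⧸ m) := Ideal.Quotient.field m
          have hle : m ^ k ≤ m := Ideal.pow_le_self (by omega)
          have h1 := trivial_of_field (K := A ⧸ m) hn hd
            ((red (Ideal.Quotient.factor hle)).comp σ)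
          intro x a b
          have h2 : red (Ideal.Quotient.factor hle) (σ x) = 1 := DFunLike.congr_fun h1 x
          have h3 : Ideal.Quotient.factor hle ((σ x).val a b) = (1 : Matrix ι ι (A ⧸ m)) a b := by
            rw [← red_apply, h2, Units.val_one]
          have h4 : Ideal.Quotient.factor hle (((σ x).val - 1) a b) = 0 := by
            rw [Matrix.sub_apply, map_sub, h3, sub_eq_zero, Matrix.one_apply, Matrix.one_apply]
            split_ifs
            · rw [map_one]
            · rw [map_zero]
          obtain ⟨y, hy⟩ := Ideal.Quotient.mk_surjective (((σ x).val - 1) a b)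
          rw [← hy] at h4 ⊢
          rw [Ideal.Quotient.factor_mk, Ideal.Quotient.eq_zero_iff_mem] at h4
          exact Ideal.mem_map_of_mem _ h4
    have h5 : red (Ideal.Quotient.mk (m ^ k)) (ψ g) = 1 := by
      have h6 : red (Ideal.Quotient.mk (m ^ k)) (ψ g) ∈
          ((red (Ideal.Quotient.mk (m ^ k))).comp ψ).range := ⟨g, rfl⟩
      rw [← hσ, hσ1] at h6
      obtain ⟨x, hx⟩ := h6
      rw [← hx]
      rfl
    have h7 := (red_eq_one_iff (m ^ k) (ψ g)).1 h5 a b
    exact h7
  exact sub_eq_zero.1 key

/-- a finitely generated linear group is defined over a finitely generated ring -/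
theorem exists_ft (hfg : Group.FG Λ) {R : Type} [CommRing R] (ρ : Λ →* (Matrix ι ι R)ˣ) :
    ∃ (A : Subalgebra ℤ R) (_ : Algebra.FiniteType ℤ A) (ψ : Λ →* (Matrix ι ι A)ˣ),
      ∀ g a b, ((ψ g).val a b : R) = (ρ g).val a b := by
  classical
  obtain ⟨T, hT⟩ := Group.fg_def.1 hfg
  let s : Finset R := T.biUnion fun t => Finset.univ.biUnion fun i : ι =>
    Finset.univ.biUnion fun j : ι => {(ρ t).val i j, (ρ t⁻¹).val i j}
  let A : Subalgebra ℤ R := Algebra.adjoin ℤ (s : Set R)
  have hR : Algebra.FiniteType ℤ A := by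
    rw [← Subalgebra.fg_iff_finiteType]
    exact ⟨s, rfl⟩
  have hent : ∀ h : Λ, ∀ i j, (ρ h).val i j ∈ A := by
    intro h
    have hmem : h ∈ Subgroup.closure (T : Set Λ) := by rw [hT]; trivial
    have hmul : ∀ x y : Λ, (∀ i j, (ρ x).val i j ∈ A) → (∀ i j, (ρ y).val i j ∈ A) →
        ∀ i j, (ρ (x * y)).val i j ∈ A := by
      intro x y hx hy i j
      rw [map_mul, Units.val_mul, Matrix.mul_apply]
      exact A.sum_mem (fun k _ => A.mul_mem (hx i k) (hy k j))
    induction hmem using Subgroup.closure_induction_left with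
    | one =>
      intro i j
      rw [map_one, Units.val_one, Matrix.one_apply]
      split_ifs
      · exact A.one_mem
      · exact A.zero_mem
    | mul_left x hx y _ ih =>
      refine hmul x y (fun i j => Algebra.subset_adjoin ?_) ih
      simp only [s, Finset.coe_biUnion, Set.mem_iUnion]
      exact ⟨x, hx, i, by simp, j, by simp, by simp⟩
    | inv_mul_cancel x hx y _ ih =>
      refine hmul x⁻¹ y (fun i j => Algebra.subset_adjoin ?_) ih
      simp only [s, Finset.coe_biUnion, Set.mem_iUnion]
      exact ⟨x, hx, i, by simp, j, by simp, by simp⟩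
  let ψ0 : Λ →* Matrix ι ι A :=
    { toFun := fun h => Matrix.of fun i j => ⟨(ρ h).val i j, hent h i j⟩
      map_one' := by
        ext i j
        simp only [Matrix.of_apply, map_one, Units.val_one, Matrix.one_apply]
        split_ifs <;> rfl
      map_mul' := by
        intro x y
        ext i j
        simp only [Matrix.of_apply, map_mul, Units.val_mul, Matrix.mul_apply]
        rw [AddSubmonoidClass.coe_finsetSum]
        rfl }
  exact ⟨A, hR, ψ0.toHomUnits, fun g a b => rfl⟩

/-- **Part 1**: triviality in dimension smaller than `n` over all commutative rings -/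
theorem trivial_ring (hn : 3 ≤ n) (hd : Fintype.card ι < n) (hfg : Group.FG Λ) (hq : FQ n Λ)
    {R : Type} [CommRing R] (ρ : Λ →* (Matrix ι ι R)ˣ) : ρ = 1 := by
  obtain ⟨A, hA, ψ, hψ⟩ := exists_ft hfg ρ
  have h1 := trivial_ft hn hd hq ψ
  ext1 g
  rw [MonoidHom.one_apply]
  apply Units.ext
  ext a b
  rw [← hψ g a b, h1, MonoidHom.one_apply, Units.val_one, Units.val_one, Matrix.one_apply,
    Matrix.one_apply]
  split_ifs <;> rfl

end genus

end Pool.Agent.L5helper41.GR
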