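import Pool.Agent.Helper460_CSP.Bls
import Pool.Agent.L5helper41.GR.Heis
import Pool.Agent.L5helper41.GR.Filt

set_option autoImplicit false

/-!
Representations of `SL(n, ℤ)`, `n ≥ 3`: trivial over fields in dimensions smaller than `n`, of
bounded order over fields of positive characteristic.
-/

namespace Pool.Agent.L5helper41.GR

open Matrix Pool.Agent.Helper460_CSP Module

section rel

variable {ι : Type} [DecidableEq ι] [Fintype ι]

lemma tv_comm (i j k l : ι) (hij : i ≠ j) (hkl : k ≠ l) (hjk : j ≠ k) (hil : i ≠ l) :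
    tv i j hij 1 * tv k l hkl 1 = tv k l hkl 1 * tv i j hij 1 := by
  apply Subtype.ext
  show transvection i j 1 * transvection k l 1 = transvection k l 1 * transvection i j 1
  unfold transvection
  simp only [mul_add, add_mul, mul_one, one_mul]
  have e1 : (single i j (1 : ℤ) : Matrix ι ι ℤ) * single k l (1 : ℤ) = 0 :=
    single_mul_single_of_ne _ _ _ _ hjk _
  have e2 : (single k l (1 : ℤ) : Matrix ι ι ℤ) * single i j (1 : ℤ) = 0 :=
    single_mul_single_of_ne _ _ _ _ hil.symm _
  rw [e1, e2]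
  abel

lemma tv_ste (i j l : ι) (hij : i ≠ j) (hjl : j ≠ l) (hil : i ≠ l) :
    tv i j hij 1 * tv j l hjl 1 = tv i l hil 1 * tv j l hjl 1 * tv i j hij 1 := by
  apply Subtype.ext
  show transvection i j 1 * transvection j l 1 =
    transvection i l 1 * transvection j l 1 * transvection i j 1
  unfold transvection
  simp only [mul_add, add_mul, mul_one, one_mul]
  have e1 : (single i j (1 : ℤ) : Matrix ι ι ℤ) * single j l (1 : ℤ) = single i l (1 : ℤ) := by
    rw [single_mul_single_same, one_mul]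
  have e2 : (single i l (1 : ℤ) : Matrix ι ι ℤ) * single j l (1 : ℤ) = 0 :=
    single_mul_single_of_ne _ _ _ _ hjl.symm _
  have e3 : (single i l (1 : ℤ) : Matrix ι ι ℤ) * single i j (1 : ℤ) = 0 :=
    single_mul_single_of_ne _ _ _ _ hil.symm _
  have e4 : (single j l (1 : ℤ) : Matrix ι ι ℤ) * single i j (1 : ℤ) = 0 :=
    single_mul_single_of_ne _ _ _ _ hil.symm _
  rw [e1, e2, e3, e4, zero_mul]
  abel

/-- the commutator relation solved for the commutator -/
lemma tv_commutator (i j l : ι) (hij : i ≠ j) (hjl : j ≠ l) (hil : i ≠ l) :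
    tv i l hil 1 = tv i j hij 1 * tv j l hjl 1 * (tv i j hij 1)⁻¹ * (tv j l hjl 1)⁻¹ := by
  rw [eq_mul_inv_iff_mul_eq, eq_mul_inv_iff_mul_eq]
  exact (tv_ste i j l hij hjl hil).symm

end rel

section gen

variable {n : ℕ}

/-- a homomorphism which is trivial on the elementary matrices of level `M` factors through
`SL(n, ℤ/M)` -/
theorem ker_le (hn : 3 ≤ n) {G : Type*} [Group G] (f : SpecialLinearGroup (Fin n) ℤ →* G) (M : ℕ)
    (hM : M ≠ 0) (hf : ∀ (i j : Fin n) (h : i ≠ j), f (tv i j h M) = 1) :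
    (SpecialLinearGroup.map (n := Fin n) (Int.castRingHom (ZMod M))).ker ≤ f.ker := by
  obtain ⟨m, rfl⟩ : ∃ m, n = m + 3 := ⟨n - 3, by omega⟩
  have h1 : El (Fin (m + 3)) (M : ℤ) ≤ f.ker := El_le fun i j h => MonoidHom.mem_ker.2 (hf i j h)
  intro A hA
  have hM' : (M : ℤ) ≠ 0 := by exact_mod_cast hM
  apply h1
  apply bls hM' m A
  rw [cgr_iff]
  exact hA

theorem eq_one_of_tv (hn : 3 ≤ n) {G : Type*} [Group G] (f : SpecialLinearGroup (Fin n) ℤ →* G)
    (hf : ∀ (i j : Fin n) (h : i ≠ j), f (tv i j h 1) = 1) : f = 1 := by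
  have h1 := ker_le hn f 1 one_ne_zero (by exact_mod_cast hf)
  ext A
  apply MonoidHom.mem_ker.1
  apply h1
  rw [MonoidHom.mem_ker]
  apply Subtype.ext
  ext i j
  exact Subsingleton.elim _ _

theorem card_range_le (hn : 3 ≤ n) {G : Type*} [Group G] (f : SpecialLinearGroup (Fin n) ℤ →* G)
    (M : ℕ) (hM : M ≠ 0) (hf : ∀ (i j : Fin n) (h : i ≠ j), f (tv i j h 1) ^ M = 1) :
    Finite f.range ∧ Nat.card f.range ≤ Nat.card (SpecialLinearGroup (Fin n) (ZMod M)) := by
  have : NeZero M := ⟨hM⟩
  have h1 := ker_le hn f M hM (by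
    intro i j h
    have e : tv i j h (M : ℤ) = tv i j h 1 ^ M := by
      have := tv_mul_zpow i j h 1 (M : ℤ)
      rw [one_mul] at this
      rw [this, zpow_natCast]
    rw [e, map_pow, hf i j h])
  have h5 := Subgroup.index_ker (SpecialLinearGroup.map (n := Fin n) (Int.castRingHom (ZMod M)))
  have h6 : (SpecialLinearGroup.map (n := Fin n) (Int.castRingHom (ZMod M))).ker.index ≠ 0 := by
    rw [h5]; exact Nat.card_pos.ne'
  have h7 : f.ker.index ≠ 0 := by
    intro h
    apply h6
    have := Subgroup.index_dvd_of_le h1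
    rw [h] at this
    exact Nat.eq_zero_of_zero_dvd this
  have h8 : Nat.card f.range ≠ 0 := by rw [← Subgroup.index_ker]; exact h7
  refine ⟨Nat.finite_of_card_ne_zero h8, ?_⟩
  rw [← Subgroup.index_ker]
  refine (Nat.le_of_dvd (Nat.pos_of_ne_zero h6) (Subgroup.index_dvd_of_le h1)).trans ?_
  rw [h5]
  exact Nat.card_le_card_of_injective _ Subtype.val_injective

/-- one trivial elementary matrix makes all of them trivial -/
lemma all_tv_of_one {G : Type*} [Group G] (f : SpecialLinearGroup (Fin n) ℤ →* G) (hn : 3 ≤ n)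
    (p q : Fin n) (hpq : p ≠ q) (h : f (tv p q hpq 1) = 1) :
    ∀ (i j : Fin n) (h : i ≠ j), f (tv i j h 1) = 1 := by
  have hL : ∀ (i j l : Fin n) (hij : i ≠ j) (hjl : j ≠ l) (hil : i ≠ l), f (tv j l hjl 1) = 1 →
      f (tv i l hil 1) = 1 := by
    intro i j l hij hjl hil h1
    rw [tv_commutator i j l hij hjl hil]
    simp [h1]
  have hR : ∀ (i j l : Fin n) (hij : i ≠ j) (hjl : j ≠ l) (hil : i ≠ l), f (tv i j hij 1) = 1 →
      f (tv i l hil 1) = 1 := by
    intro i j l hij hjl hil h1
    rw [tv_commutator i j l hij hjl hil]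
    simp [h1]
  have h1 : ∀ (i : Fin n) (hi : i ≠ q), f (tv i q hi 1) = 1 := by
    intro i hi
    by_cases hip : i = p
    · subst hip; exact h
    · exact hL i p q hip hpq hi h
  have h2 : ∀ (i j : Fin n) (hij : i ≠ j), i ≠ q → f (tv i j hij 1) = 1 := by
    intro i j hij hi
    by_cases hj : j = q
    · subst hj; exact h1 i hij
    · exact hR i q j hi (Ne.symm hj) hij (h1 i hi)
  intro i j hij
  by_cases hi : i = q
  · subst hi
    obtain ⟨l, hl1, hl2⟩ := exists_third hn i j
    exact hL i l j hl1.symm hl2 hij (h2 l j hl2 hl1)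
  · exact h2 i j hij hi

end gen

section field

variable {n : ℕ} {K : Type*} [Field K] {ι : Type*} [Fintype ι] [DecidableEq ι]

/-- the endomorphisms given by the elementary matrices -/
noncomputable def fam (f : SpecialLinearGroup (Fin n) ℤ →* (Matrix ι ι K)ˣ) (i j : Fin n) :
    Module.End K (ι → K) :=
  if h : i ≠ j then Matrix.toLin' (f (tv i j h 1)).val else 1

lemma fam_eq (f : SpecialLinearGroup (Fin n) ℤ →* (Matrix ι ι K)ˣ) (i j : Fin n) (h : i ≠ j) :
    fam f i j = Matrix.toLin' (f (tv i j h 1)).val := by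
  unfold fam
  rw [dif_pos h]

lemma toLin'_mul' (A B : Matrix ι ι K) : Matrix.toLin' (A * B) =
    (Matrix.toLin' A * Matrix.toLin' B : Module.End K (ι → K)) := by
  rw [Matrix.toLin'_mul]; rfl

lemma fam_rel (f : SpecialLinearGroup (Fin n) ℤ →* (Matrix ι ι K)ˣ) : Rel (fam f) := by
  refine ⟨?_, ?_, ?_⟩
  · intro i j hij
    rw [fam_eq f i j hij]
    have h1 : (Matrix.toLin' (f (tv i j hij 1))⁻¹.val : Module.End K (ι → K)) *
        Matrix.toLin' (f (tv i j hij 1)).val = 1 := by
      rw [← toLin'_mul', Units.inv_mul, Matrix.toLin'_one]; rfl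
    intro v w hvw
    have h2 := LinearMap.congr_fun h1 v
    have h3 := LinearMap.congr_fun h1 w
    simp only [Module.End.mul_apply, Module.End.one_apply] at h2 h3
    rw [← h2, ← h3, hvw]
  · intro i j k l hij hkl hjk hil
    rw [fam_eq f i j hij, fam_eq f k l hkl, ← toLin'_mul', ← toLin'_mul', ← Units.val_mul,
      ← Units.val_mul, ← map_mul, ← map_mul, tv_comm i j k l hij hkl hjk hil]
  · intro i j l hij hjl hil
    rw [fam_eq f i j hij, fam_eq f j l hjl, fam_eq f i l hil, ← toLin'_mul', ← toLin'_mul',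
      ← toLin'_mul', ← Units.val_mul, ← Units.val_mul, ← Units.val_mul, ← map_mul, ← map_mul,
      ← map_mul, tv_ste i j l hij hjl hil]

lemma toLin'_inj {A : Matrix ι ι K} (h : (Matrix.toLin' A : Module.End K (ι → K)) = 1) : A = 1 := by
  apply Matrix.toLin'.injective
  rw [h, Matrix.toLin'_one]; rfl

/-- the case of an algebraically closed field -/
theorem trivial_of_closed [IsAlgClosed K] (hn : 3 ≤ n) (hd : Fintype.card ι < n)
    (f : SpecialLinearGroup (Fin n) ℤ →* (Matrix ι ι K)ˣ) : f = 1 := by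
  have hR := fam_rel f
  have hfr : finrank K (ι → K) = Fintype.card ι := Module.finrank_fintype_fun_eq_card K
  have hnil : ∀ i j, i ≠ j → IsNilpotent (fam f i j - 1) := by
    intro i j hij
    refine ⟨finrank K (ι → K), ?_⟩
    have := unip (fam f i j) 1 (fun μ hμ => by
      rw [pow_one]
      exact hR.eig_one hn (by rw [hfr]; exact hd) hij hμ)
    rwa [pow_one] at this
  have hU : UTri (fam f) := by
    refine ⟨fun i j hij => hnil i j (ne_of_lt hij), ?_, ?_⟩
    · intro i j k l hij hkl hjk hil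
      exact hR.comm i j k l (ne_of_lt hij) (ne_of_lt hkl) hjk hil
    · intro i j l hij hjl
      exact hR.ste i j l (ne_of_lt hij) (ne_of_lt hjl) (ne_of_lt (hij.trans hjl))
  let p : Fin n := ⟨0, by omega⟩
  let q : Fin n := ⟨n - 1, by omega⟩
  have hpq : p < q := Fin.lt_def.2 (show 0 < n - 1 by omega)
  have h1 := hU.eq_one p q hpq (by
    show finrank K (ι → K) ≤ (n - 1) - 0
    rw [hfr]; omega)
  rw [fam_eq f p q (ne_of_lt hpq)] at h1
  exact eq_one_of_tv hn f (all_tv_of_one f hn p q (ne_of_lt hpq) (Units.ext (toLin'_inj h1)))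

/-- extension of scalars -/
lemma units_map_inj {R S : Type*} [CommRing R] [CommRing S] (φ : R →+* S)
    (hφ : Function.Injective φ) :
    Function.Injective (Units.map (φ.mapMatrix (m := ι)).toMonoidHom) := by
  intro A B h
  apply Units.ext
  have h1 := congrArg Units.val h
  ext i j
  apply hφ
  exact congrFun (congrFun h1 i) j

theorem trivial_of_field (hn : 3 ≤ n) (hd : Fintype.card ι < n)
    (f : SpecialLinearGroup (Fin n) ℤ →* (Matrix ι ι K)ˣ) : f = 1 := by
  have h1 := trivial_of_closed hn hd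
    ((Units.map ((algebraMap K (AlgebraicClosure K)).mapMatrix (m := ι)).toMonoidHom).comp f)
  ext1 A
  apply units_map_inj (algebraMap K (AlgebraicClosure K)) (algebraMap K _).injective
  have := DFunLike.congr_fun h1 A
  rw [MonoidHom.one_apply, map_one]
  exact this

/-- the exponent -/
def expo (d p : ℕ) : ℕ := d.factorial * p ^ d

theorem torsion_of_closed [IsAlgClosed K] (p : ℕ) [CharP K p] (hp : p.Prime) (hn : 3 ≤ n)
    (f : SpecialLinearGroup (Fin n) ℤ →* (Matrix ι ι K)ˣ) (i j : Fin n) (hij : i ≠ j) :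
    f (tv i j hij 1) ^ expo (Fintype.card ι) p = 1 := by
  have hR := fam_rel f
  have hfr : finrank K (ι → K) = Fintype.card ι := Module.finrank_fintype_fun_eq_card K
  set d := Fintype.card ι with hd
  have h1 := unip (fam f i j) d.factorial (fun μ hμ => by
    obtain ⟨m, hm1, hm2, hm3⟩ := hR.root hn hij hμ
    rw [hfr] at hm2
    obtain ⟨c, hc⟩ := Nat.dvd_factorial hm1 hm2
    rw [hc, pow_mul, hm3, one_pow])
  rw [hfr] at h1
  have hfact : Fact p.Prime := ⟨hp⟩
  have hcp : CharP (Module.End K (ι → K)) p ∨ Subsingleton (Module.End K (ι → K)) := by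
    rcases subsingleton_or_nontrivial (Module.End K (ι → K)) with h | h
    · exact Or.inr h
    · left
      exact charP_of_injective_algebraMap (algebraMap K (Module.End K (ι → K))).injective p
  have h2 : (fam f i j) ^ expo d p = 1 := by
    rcases hcp with hcp | hs
    · have h3 : ((fam f i j) ^ d.factorial - 1) ^ (p ^ d) = 0 := by
        have h4 : d ≤ p ^ d := (Nat.lt_pow_self hp.one_lt).le
        obtain ⟨c, hc⟩ := Nat.exists_eq_add_of_le h4
        rw [hc, pow_add, h1, zero_mul]
      rw [sub_pow_char_pow_of_commute p d (Commute.one_right _), one_pow, sub_eq_zero,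
        ← pow_mul] at h3
      exact h3
    · exact Subsingleton.elim _ _
  rw [fam_eq f i j hij] at h2
  apply Units.ext
  rw [Units.val_pow_eq_pow_val, Units.val_one]
  apply toLin'_inj
  rw [Matrix.toLin'_pow]
  exact h2

theorem torsion_of_field (p : ℕ) [CharP K p] (hp : p.Prime) (hn : 3 ≤ n)
    (f : SpecialLinearGroup (Fin n) ℤ →* (Matrix ι ι K)ˣ) (i j : Fin n) (hij : i ≠ j) :
    f (tv i j hij 1) ^ expo (Fintype.card ι) p = 1 := by
  have hc : CharP (AlgebraicClosure K) p :=
    charP_of_injective_algebraMap (algebraMap K (AlgebraicClosure K)).injective p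
  have h1 := torsion_of_closed p hp hn
    ((Units.map ((algebraMap K (AlgebraicClosure K)).mapMatrix (m := ι)).toMonoidHom).comp f) i j hij
  apply units_map_inj (algebraMap K (AlgebraicClosure K)) (algebraMap K _).injective
  rw [map_one, map_pow]
  exact h1

theorem bound_of_field (p : ℕ) [CharP K p] (hp : p.Prime) (hn : 3 ≤ n)
    (f : SpecialLinearGroup (Fin n) ℤ →* (Matrix ι ι K)ˣ) : Finite f.range ∧
      Nat.card f.range ≤ Nat.card (SpecialLinearGroup (Fin n) (ZMod (expo (Fintype.card ι) p))) :=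
  card_range_le hn f _ (by
    unfold expo
    exact Nat.mul_ne_zero (Nat.factorial_ne_zero _) (pow_ne_zero _ hp.ne_zero))
    (torsion_of_field p hp hn f)

end field

end Pool.Agent.L5helper41.GR
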