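import Pool.Agent.L5helper41.GR.Rigid
import Mathlib

/-!
Only finitely many characters of each degree in characteristic zero.
-/

namespace Pool.Agent.L5helper41.GR

open Polynomial

section ss

/-- a noetherian argument: let `B` be a noetherian `K`-algebra of functions on `X` and `t j` a family
of functions in `B`, each taking finitely many values; then the family takes finitely many values. -/
theorem finite_values {X J K : Type} [Field K] (B : Subalgebra K (X → K)) [IsNoetherianRing B]
    (t : J → X → K) (ht : ∀ j, t j ∈ B) (F : J → Finset K) (hF : ∀ j x, t j x ∈ F j) :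
    (Set.range fun (x : X) (j : J) => t j x).Finite := by
  classical
  have key : ∀ I : Ideal B, ∀ e : B, (∀ x, (e : X → K) x = 0 ∨ (e : X → K) x = 1) →
      I = Ideal.span {1 - e} →
      ((fun (x : X) (j : J) => t j x) '' {x | (e : X → K) x = 1}).Finite := by
    intro I
    induction I using WellFoundedGT.induction with
    | ind I ih =>
      intro e he hI
      by_cases hcon : ∀ j x y, (e : X → K) x = 1 → (e : X → K) y = 1 → t j x = t j y
      · apply Set.Subsingleton.finite
        rintro _ ⟨x, hx, rfl⟩ _ ⟨y, hy, rfl⟩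
        funext j
        exact hcon j x y hx hy
      · push Not at hcon
        obtain ⟨j, x1, x2, hx1, hx2, h12⟩ := hcon
        let tB : B := ⟨t j, ht j⟩
        let g : K → B := fun c => ∏ c' ∈ (F j).erase c,
          (algebraMap K B ((c - c')⁻¹) * (tB - algebraMap K B c'))
        have hg : ∀ c x, ((g c : B) : X → K) x = ∏ c' ∈ (F j).erase c, ((c - c')⁻¹ * (t j x - c')) := by
          intro c x
          have h1 : ((g c : B) : X → K) = ∏ c' ∈ (F j).erase c,
              ((algebraMap K (X → K) ((c - c')⁻¹)) * (t j - algebraMap K (X → K) c')) := by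
            show B.val (∏ c' ∈ (F j).erase c, _) = _
            rw [map_prod]
            rfl
          rw [h1, Finset.prod_apply]
          rfl
        have hg1 : ∀ c x, t j x = c → ((g c : B) : X → K) x = 1 := by
          intro c x hx
          rw [hg]
          apply Finset.prod_eq_one
          intro c' hc'
          rw [hx]
          exact inv_mul_cancel₀ (sub_ne_zero.2 (Finset.ne_of_mem_erase hc').symm)
        have hg0 : ∀ c x, t j x ≠ c → ((g c : B) : X → K) x = 0 := by
          intro c x hx
          rw [hg]
          apply Finset.prod_eq_zero (Finset.mem_erase.2 ⟨hx, hF j x⟩)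
          rw [sub_self, mul_zero]
        have he' : ∀ c x, ((e * g c : B) : X → K) x = (e : X → K) x * ((g c : B) : X → K) x :=
          fun c x => rfl
        have hfin : ∀ c ∈ (F j : Set K), ((fun (x : X) (j : J) => t j x) ''
            {x | ((e * g c : B) : X → K) x = 1}).Finite := by
          intro c _
          refine ih (Ideal.span {1 - e * g c}) ?_ (e * g c) ?_ rfl
          · rw [hI]
            refine lt_of_le_not_ge ?_ ?_
            · rw [Ideal.span_singleton_le_span_singleton]
              refine ⟨1 - e, ?_⟩
              apply Subtype.ext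
              funext x
              show 1 - (e : X → K) x = (1 - (e : X → K) x * ((g c : B) : X → K) x) *
                (1 - (e : X → K) x)
              rcases he x with h | h <;> rw [h] <;> ring
            · intro hle
              rw [Ideal.span_singleton_le_span_singleton] at hle
              obtain ⟨a, ha⟩ := hle
              have h1 : ∀ x, (e : X → K) x = 1 → ((g c : B) : X → K) x = 1 := by
                intro x hx
                have h2 : 1 - (e : X → K) x * ((g c : B) : X → K) x =
                    (1 - (e : X → K) x) * (a : X → K) x :=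
                  congrFun (congrArg Subtype.val ha) x
                rw [hx, sub_self, zero_mul, one_mul, sub_eq_zero] at h2
                exact h2.symm
              by_cases h3 : t j x1 = c
              · have h4 := hg0 c x2 (fun h => h12 (h3.trans h.symm))
                rw [h1 x2 hx2] at h4
                exact one_ne_zero h4
              · have h4 := hg0 c x1 h3
                rw [h1 x1 hx1] at h4
                exact one_ne_zero h4
          · intro x
            rw [he']
            by_cases h3 : t j x = c
            · rw [hg1 c x h3, mul_one]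
              exact he x
            · rw [hg0 c x h3, mul_zero]
              exact Or.inl rfl
        refine ((F j).finite_toSet.biUnion hfin).subset ?_
        rintro _ ⟨x, hx, rfl⟩
        rw [Set.mem_iUnion₂]
        refine ⟨t j x, hF j x, x, ?_, rfl⟩
        show ((e * g (t j x) : B) : X → K) x = 1
        rw [he', hg1 _ x rfl, mul_one]
        exact hx
  have h1 := key _ 1 (fun x => Or.inr rfl) rfl
  refine h1.subset ?_
  rintro _ ⟨x, rfl⟩
  exact ⟨x, rfl, rfl⟩

variable {n : ℕ} {Λ : Type} [Group Λ] {ι : Type} [Fintype ι] [DecidableEq ι]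

theorem ss_rigid (hn : 3 ≤ n) (hfg : Group.FG Λ) (hq : FQ n Λ) (Γ : Subgroup Λ)
    (hΓ : Γ.index ≠ 0) (K : Type) [Field K] [CharZero K] :
    (Set.range fun (ρ : Γ →* (Matrix ι ι K)ˣ) (γ : Γ) => (ρ γ).val.charpoly).Finite := by
  classical
  have hΓf : Γ.FiniteIndex := ⟨hΓ⟩
  have hΓfg : Group.FG Γ := Subgroup.fg_of_index_ne_zero Γ
  obtain ⟨A, hA, ψ, hψ⟩ := exists_ft hΓfg (univ Γ ι K).toHomUnits
  obtain ⟨s, hs⟩ := (Subalgebra.fg_iff_finiteType A).2 hA
  let B : Subalgebra K ((Γ →* (Matrix ι ι K)ˣ) → K) :=
    Algebra.adjoin K (s : Set ((Γ →* (Matrix ι ι K)ˣ) → K))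
  have hB : Algebra.FiniteType K B := by
    rw [← Subalgebra.fg_iff_finiteType]
    exact ⟨s, rfl⟩
  have hBn : IsNoetherianRing B := Algebra.FiniteType.isNoetherianRing K B
  have hAB : ∀ x ∈ A, x ∈ B := by
    intro x hx
    rw [← hs] at hx
    have h1 : Algebra.adjoin ℤ (s : Set ((Γ →* (Matrix ι ι K)ˣ) → K)) ≤ B.restrictScalars ℤ :=
      Algebra.adjoin_le Algebra.subset_adjoin
    exact h1 hx
  let t : Γ × ℕ → (Γ →* (Matrix ι ι K)ˣ) → K := fun p ρ => (ρ p.1).val.charpoly.coeff p.2
  have ht : ∀ p, t p ∈ B := by
    intro p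
    apply hAB
    have h1 : t p = (((ψ p.1).val.charpoly.coeff p.2 : A) : (Γ →* (Matrix ι ι K)ˣ) → K) := by
      funext ρ
      let j : A →+* K := (Pi.evalRingHom (fun _ : Γ →* (Matrix ι ι K)ˣ => K) ρ).comp A.subtype
      have hj : (ψ p.1).val.map j = (ρ p.1).val := by
        ext a b
        show (((ψ p.1).val a b : A) : (Γ →* (Matrix ι ι K)ˣ) → K) ρ = _
        rw [hψ]
        rfl
      have h5 : j ((ψ p.1).val.charpoly.coeff p.2) = (ρ p.1).val.charpoly.coeff p.2 := by
        rw [← hj, Matrix.charpoly_map, coeff_map]
      exact h5.symm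
    rw [h1]
    exact Subtype.property _
  have hex : ∀ p : Γ × ℕ, ∃ F : Finset K, ∀ ρ, t p ρ ∈ F := by
    intro p
    obtain ⟨P, hP0, hP⟩ := rigid (ι := ι) hn hfg hq Γ hΓ K p.1 p.2
    have hP1 : P.map (algebraMap ℤ K) ≠ 0 :=
      (Polynomial.map_ne_zero_iff (algebraMap ℤ K).injective_int).2 hP0
    refine ⟨(P.map (algebraMap ℤ K)).roots.toFinset, fun ρ => ?_⟩
    rw [Multiset.mem_toFinset, mem_roots hP1, IsRoot.def, eval_map_algebraMap]
    exact hP ρ
  choose F hF using hex
  have h1 := finite_values B t ht F hF
  have h2 : (Set.range fun (ρ : Γ →* (Matrix ι ι K)ˣ) (p : Γ × ℕ) => t p ρ).Finite := h1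
  let Φ : (Γ → K[X]) → (Γ × ℕ → K) := fun f p => (f p.1).coeff p.2
  have hΦ : Function.Injective Φ := by
    intro f g h
    funext γ
    ext i
    exact congrFun h (γ, i)
  apply Set.Finite.of_finite_image (f := Φ) _ hΦ.injOn
  refine h2.subset ?_
  rintro _ ⟨_, ⟨ρ, rfl⟩, rfl⟩
  exact ⟨ρ, rfl⟩

end ss

end Pool.Agent.L5helper41.GR
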