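import Pool.Agent.L5helper41.GR.Ind
import Mathlib

/-!
Representations of dimension smaller than `n` of subgroups of finite index: bounded order.
-/

namespace Pool.Agent.L5helper41.GR

open Matrix Pool.Agent.Helper460_CSP Module

section tvgen

variable {ι : Type} [DecidableEq ι] [Fintype ι]

lemma tv_comm' (i j k l : ι) (hij : i ≠ j) (hkl : k ≠ l) (hjk : j ≠ k) (hil : i ≠ l) (a b : ℤ) :
    tv i j hij a * tv k l hkl b = tv k l hkl b * tv i j hij a := by
  apply Subtype.ext
  show transvection i j a * transvection k l b = transvection k l b * transvection i j a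
  unfold transvection
  simp only [mul_add, add_mul, mul_one, one_mul]
  have e1 : (single i j a : Matrix ι ι ℤ) * single k l b = 0 :=
    single_mul_single_of_ne _ _ _ _ hjk _
  have e2 : (single k l b : Matrix ι ι ℤ) * single i j a = 0 :=
    single_mul_single_of_ne _ _ _ _ hil.symm _
  rw [e1, e2]
  abel

lemma tv_ste' (i j l : ι) (hij : i ≠ j) (hjl : j ≠ l) (hil : i ≠ l) (a b : ℤ) :
    tv i j hij a * tv j l hjl b = tv i l hil (a * b) * tv j l hjl b * tv i j hij a := by
  apply Subtype.ext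
  show transvection i j a * transvection j l b =
    transvection i l (a * b) * transvection j l b * transvection i j a
  unfold transvection
  simp only [mul_add, add_mul, mul_one, one_mul]
  have e1 : (single i j a : Matrix ι ι ℤ) * single j l b = single i l (a * b) := by
    rw [single_mul_single_same]
  have e2 : (single i l (a * b) : Matrix ι ι ℤ) * single j l b = 0 :=
    single_mul_single_of_ne _ _ _ _ hjl.symm _
  have e3 : (single i l (a * b) : Matrix ι ι ℤ) * single i j a = 0 :=
    single_mul_single_of_ne _ _ _ _ hil.symm _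
  have e4 : (single j l b : Matrix ι ι ℤ) * single i j a = 0 :=
    single_mul_single_of_ne _ _ _ _ hil.symm _
  rw [e1, e2, e3, e4, zero_mul]
  abel

end tvgen

section fam

variable {n : ℕ}

/-- families with the Steinberg relations of level `E` -/
structure Fam {H : Type} [Group H] (E : ℤ) (Y : Fin n → Fin n → ℤ → H) : Prop where
  add : ∀ i j, i ≠ j → ∀ b c, Y i j (b + c) = Y i j b * Y i j c
  comm : ∀ i j k l, i ≠ j → k ≠ l → j ≠ k → i ≠ l → ∀ b c, Y i j b * Y k l c = Y k l c * Y i j b
  ste : ∀ i j l, i ≠ j → j ≠ l → i ≠ l → ∀ b c,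
    Y i j b * Y j l c = Y i l (E * b * c) * Y j l c * Y i j b

variable {H : Type} [Group H] {E : ℤ} {Y : Fin n → Fin n → ℤ → H}

lemma Fam.zero (hY : Fam E Y) {i j : Fin n} (hij : i ≠ j) : Y i j 0 = 1 := by
  have := hY.add i j hij 0 0
  rw [add_zero] at this
  exact (left_eq_mul.1 this)

lemma Fam.zmul (hY : Fam E Y) {i j : Fin n} (hij : i ≠ j) (b m : ℤ) :
    Y i j (b * m) = Y i j b ^ m := by
  let f : Multiplicative ℤ →* H :=
    { toFun := fun b => Y i j (Multiplicative.toAdd b)
      map_one' := hY.zero hij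
      map_mul' := fun b c => hY.add i j hij _ _ }
  have h1 := map_zpow f (Multiplicative.ofAdd b) m
  rw [← ofAdd_zsmul, smul_eq_mul, mul_comm] at h1
  exact h1

lemma Fam.of_dvd (hY : Fam E Y) {i j : Fin n} (hij : i ≠ j) {P b c : ℤ} (hP : Y i j P = 1)
    (h : P ∣ b - c) : Y i j b = Y i j c := by
  obtain ⟨m, hm⟩ := h
  have h1 : b = P * m + c := by linarith
  rw [h1, hY.add i j hij, hY.zmul hij, hP, _root_.one_zpow, one_mul]

/-- one trivial member makes all members with the same idempotent parameter trivial -/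
lemma Fam.spread (hn : 3 ≤ n) (hY : Fam E Y) (b : ℤ)
    (hb : ∀ i j, i ≠ j → Y i j (E * b * b) = Y i j b) (p q : Fin n) (hpq : p ≠ q)
    (h : Y p q b = 1) : ∀ (i j : Fin n), i ≠ j → Y i j b = 1 := by
  have hL : ∀ (i j l : Fin n), i ≠ j → j ≠ l → i ≠ l → Y j l b = 1 → Y i l b = 1 := by
    intro i j l hij hjl hil h1
    have := hY.ste i j l hij hjl hil b b
    rw [hb i l hil, h1, mul_one, mul_one] at this
    exact right_eq_mul.1 this
  have hR : ∀ (i j l : Fin n), i ≠ j → j ≠ l → i ≠ l → Y i j b = 1 → Y i l b = 1 := by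
    intro i j l hij hjl hil h1
    have := hY.ste i j l hij hjl hil b b
    rw [hb i l hil, h1, mul_one, one_mul] at this
    exact right_eq_mul.1 this
  have h1 : ∀ (i : Fin n), i ≠ q → Y i q b = 1 := by
    intro i hi
    by_cases hip : i = p
    · subst hip; exact h
    · exact hL i p q hip hpq hi h
  have h2 : ∀ (i j : Fin n), i ≠ j → i ≠ q → Y i j b = 1 := by
    intro i j hij hi
    by_cases hj : j = q
    · subst hj; exact h1 i hij
    · exact hR i q j hi (Ne.symm hj) hij (h1 i hi)
  intro i j hij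
  by_cases hi : i = q
  · subst hi
    obtain ⟨l, hl1, hl2⟩ := exists_third hn i j
    exact hL i l j hl1.symm hl2 hij (h2 l j hl2 hl1)
  · exact h2 i j hij hi

end fam

section famfield

variable {n : ℕ} {K : Type} [Field K] {ι : Type} [Fintype ι] [DecidableEq ι]

/-- a Steinberg family in dimension smaller than `n` whose members are killed by a number prime to
the level is trivial -/
theorem Fam.one_of_small [IsAlgClosed K] (hn : 3 ≤ n) (hd : Fintype.card ι < n) {E : ℤ}
    {Y : Fin n → Fin n → ℤ → (Matrix ι ι K)ˣ} (hY : Fam E Y) (P : ℤ) (hPE : IsCoprime E P)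
    (hP : ∀ i j, i ≠ j → Y i j P = 1) : ∀ i j, i ≠ j → Y i j 1 = 1 := by
  obtain ⟨b, c, hbc⟩ := hPE
  have hidem : ∀ i j, i ≠ j → Y i j (E * b * b) = Y i j b := by
    intro i j hij
    apply hY.of_dvd hij (hP i j hij)
    refine ⟨- (c * b), ?_⟩
    have h1 : E * b = 1 - c * P := by linarith
    rw [h1]; ring
  let u : Fin n → Fin n → Module.End K (ι → K) := fun i j =>
    if i ≠ j then Matrix.toLin' (Y i j b).val else 1
  have hu : ∀ i j, i ≠ j → u i j = Matrix.toLin' (Y i j b).val := fun i j h => if_pos h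
  have hR : Rel u := by
    refine ⟨?_, ?_, ?_⟩
    · intro i j hij
      rw [hu i j hij]
      have h1 : (Matrix.toLin' (Y i j b)⁻¹.val : Module.End K (ι → K)) *
          Matrix.toLin' (Y i j b).val = 1 := by
        rw [← toLin'_mul', Units.inv_mul, Matrix.toLin'_one]; rfl
      intro v w hvw
      have h2 := LinearMap.congr_fun h1 v
      have h3 := LinearMap.congr_fun h1 w
      simp only [Module.End.mul_apply, Module.End.one_apply] at h2 h3
      rw [← h2, ← h3, hvw]
    · intro i j k l hij hkl hjk hil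
      rw [hu i j hij, hu k l hkl, ← toLin'_mul', ← toLin'_mul', ← Units.val_mul,
        ← Units.val_mul, hY.comm i j k l hij hkl hjk hil]
    · intro i j l hij hjl hil
      rw [hu i j hij, hu j l hjl, hu i l hil, ← toLin'_mul', ← toLin'_mul',
        ← toLin'_mul', ← Units.val_mul, ← Units.val_mul, ← Units.val_mul,
        hY.ste i j l hij hjl hil, hidem i l hil]
  have hfr : finrank K (ι → K) = Fintype.card ι := Module.finrank_fintype_fun_eq_card K
  have hnil : ∀ i j, i ≠ j → IsNilpotent (u i j - 1) := by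
    intro i j hij
    refine ⟨finrank K (ι → K), ?_⟩
    have := unip (u i j) 1 (fun μ hμ => by
      rw [pow_one]
      exact hR.eig_one hn (by rw [hfr]; exact hd) hij hμ)
    rwa [pow_one] at this
  have hU : UTri u := by
    refine ⟨fun i j hij => hnil i j (ne_of_lt hij), ?_, ?_⟩
    · intro i j k l hij hkl hjk hil
      exact hR.comm i j k l (ne_of_lt hij) (ne_of_lt hkl) hjk hil
    · intro i j l hij hjl
      exact hR.ste i j l (ne_of_lt hij) (ne_of_lt hjl) (ne_of_lt (hij.trans hjl))
  let p : Fin n := ⟨0, by omega⟩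
  let q : Fin n := ⟨n - 1, by omega⟩
  have hpq : p < q := Fin.lt_def.2 (show 0 < n - 1 by omega)
  have h1 := hU.eq_one p q hpq (by
    show finrank K (ι → K) ≤ (n - 1) - 0
    rw [hfr]; omega)
  rw [hu p q (ne_of_lt hpq)] at h1
  have h2 := hY.spread hn b hidem p q (ne_of_lt hpq) (Units.ext (toLin'_inj h1))
  intro i j hij
  have h3 : Y i j (b * E) = 1 := by rw [hY.zmul hij, h2 i j hij, _root_.one_zpow]
  rw [← h3]
  apply hY.of_dvd hij (hP i j hij)
  exact ⟨c, by linarith⟩

end famfield

section slsub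

variable {n : ℕ} {K : Type} [Field K] {ι : Type} [Fintype ι] [DecidableEq ι]

lemma pow_smul_eq {Λ : Type} [Group Λ] (Δ : Subgroup Λ) (hΔ : Δ.index ≠ 0) (E : ℕ)
    (hE : Δ.index.factorial ∣ E) (g : Λ) (x : Λ ⧸ Δ) : (g ^ E) • x = x := by
  classical
  have : Δ.FiniteIndex := ⟨hΔ⟩
  have hfin : Finite (Λ ⧸ Δ) := inferInstance
  let φ := MulAction.toPermHom Λ (Λ ⧸ Δ)
  have h1 : (φ g) ^ Δ.index.factorial = 1 := by
    have h2 : Nat.card (Equiv.Perm (Λ ⧸ Δ)) = Δ.index.factorial := by
      rw [Nat.card_perm]; rfl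
    rw [← h2]
    exact pow_card_eq_one'
  obtain ⟨m, rfl⟩ := hE
  have h3 : φ (g ^ (Δ.index.factorial * m)) = 1 := by
    rw [map_pow, pow_mul, h1, one_pow]
  have h4 := Equiv.congr_fun h3 x
  exact h4

theorem sub_closed [IsAlgClosed K] (p : ℕ) [CharP K p] (hp : p.Prime) (hn : 3 ≤ n)
    (hd : Fintype.card ι < n) (hd0 : Fintype.card ι ≠ 0)
    (Δ : Subgroup (SpecialLinearGroup (Fin n) ℤ)) (hΔ : Δ.index ≠ 0)
    (hpE : ¬ p ∣ (Δ.index * Fintype.card ι).factorial) (σ : Δ →* (Matrix ι ι K)ˣ) :
    Finite σ.range ∧ Nat.card σ.range ≤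
      Nat.card (SpecialLinearGroup (Fin n) (ZMod (Δ.index * Fintype.card ι).factorial)) := by
  classical
  have : Δ.FiniteIndex := ⟨hΔ⟩
  have : Fintype (SpecialLinearGroup (Fin n) ℤ ⧸ Δ) := Fintype.ofFinite _
  set D := Δ.index * Fintype.card ι with hD
  have hcard : Fintype.card ((SpecialLinearGroup (Fin n) ℤ ⧸ Δ) × ι) = D := by
    rw [Fintype.card_prod, hD, Subgroup.index, Nat.card_eq_fintype_card]
  have hdvd : Δ.index.factorial ∣ D.factorial := by
    apply Nat.factorial_dvd_factorial
    rw [hD]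
    exact Nat.le_mul_of_pos_right _ (Nat.pos_of_ne_zero hd0)
  let Ind := ind Δ σ
  let C : Subgroup (SpecialLinearGroup (Fin n) ℤ) :=
    (MulAction.toPermHom (SpecialLinearGroup (Fin n) ℤ) (SpecialLinearGroup (Fin n) ℤ ⧸ Δ)).ker
  have hCx : ∀ c ∈ C, ∀ x : SpecialLinearGroup (Fin n) ℤ ⧸ Δ, c • x = x := by
    intro c hc x
    exact Equiv.congr_fun (MonoidHom.mem_ker.1 hc) x
  have hC : ∀ (i j : Fin n) (h : i ≠ j) (b : ℤ), tv i j h ((D.factorial : ℤ) * b) ∈ C := by
    intro i j h b
    rw [MonoidHom.mem_ker]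
    ext x
    have h1 : tv i j h ((D.factorial : ℤ) * b) = tv i j h b ^ D.factorial := by
      rw [mul_comm, tv_mul_zpow, zpow_natCast]
    show tv i j h ((D.factorial : ℤ) * b) • x = x
    rw [h1]
    exact pow_smul_eq Δ hΔ _ hdvd _ x
  let κ : (SpecialLinearGroup (Fin n) ℤ ⧸ Δ) → C →* (Matrix ι ι K)ˣ := fun x =>
    MonoidHom.mk' (fun c => σ (coc Δ c x)) (by
      intro a b
      show σ (coc Δ ((a : SpecialLinearGroup (Fin n) ℤ) * b) x) = _
      rw [coc_mul, hCx _ b.2, map_mul])
  let Y : (SpecialLinearGroup (Fin n) ℤ ⧸ Δ) → Fin n → Fin n → ℤ → (Matrix ι ι K)ˣ :=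
    fun x i j b => if h : i ≠ j then κ x ⟨tv i j h ((D.factorial : ℤ) * b), hC i j h b⟩ else 1
  have hYd : ∀ x i j (h : i ≠ j) b,
      Y x i j b = κ x ⟨tv i j h ((D.factorial : ℤ) * b), hC i j h b⟩ := fun x i j h b => dif_pos h
  have hY : ∀ x, Fam (D.factorial : ℤ) (Y x) := by
    intro x
    refine ⟨?_, ?_, ?_⟩
    · intro i j hij b c
      rw [hYd x i j hij, hYd x i j hij, hYd x i j hij, ← map_mul]
      congr 1
      apply Subtype.ext
      show tv i j hij _ = tv i j hij _ * tv i j hij _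
      rw [← tv_add, mul_add]
    · intro i j k l hij hkl hjk hil b c
      rw [hYd x i j hij, hYd x k l hkl, ← map_mul, ← map_mul]
      congr 1
      apply Subtype.ext
      exact tv_comm' i j k l hij hkl hjk hil _ _
    · intro i j l hij hjl hil b c
      rw [hYd x i j hij, hYd x j l hjl, hYd x i l hil, ← map_mul, ← map_mul, ← map_mul]
      congr 1
      apply Subtype.ext
      show tv i j hij _ * tv j l hjl _ = tv i l hil _ * tv j l hjl _ * tv i j hij _
      rw [tv_ste' i j l hij hjl hil]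
      congr 3
      ring
  have hblock : ∀ c ∈ C, ∀ x (a b : ι), (Ind c).val (x, a) (x, b) = (σ (coc Δ c x)).val a b := by
    intro c hc x a b
    show (if x = c • x then (σ (coc Δ c x)).val a b else 0) = _
    rw [if_pos (hCx c hc x).symm]
  have hP : ∀ x i j, i ≠ j → Y x i j ((p ^ D : ℕ) : ℤ) = 1 := by
    intro x i j hij
    rw [hYd x i j hij]
    have h1 := torsion_of_field p hp hn Ind i j hij
    rw [hcard, ← map_pow] at h1
    have h2 : tv i j hij ((D.factorial : ℤ) * ((p ^ D : ℕ) : ℤ)) = tv i j hij 1 ^ expo D p := by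
      rw [← zpow_natCast, ← tv_mul_zpow]
      congr 1
      unfold expo
      push_cast
      ring
    rw [← h2] at h1
    apply Units.ext
    ext a b
    have h3 := hblock _ (hC i j hij ((p ^ D : ℕ) : ℤ)) x a b
    show (σ (coc Δ (tv i j hij ((D.factorial : ℤ) * ((p ^ D : ℕ) : ℤ))) x)).val a b = _
    rw [← h3, h1, Units.val_one, Units.val_one, Matrix.one_apply, Matrix.one_apply]
    simp
  have hco : IsCoprime (D.factorial : ℤ) ((p ^ D : ℕ) : ℤ) := by
    rw [Nat.isCoprime_iff_coprime]
    exact ((Nat.Prime.coprime_iff_not_dvd hp).2 hpE).symm.pow_right D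
  have hone : ∀ i j (hij : i ≠ j), Ind (tv i j hij (D.factorial : ℤ)) = 1 := by
    intro i j hij
    have hm := hC i j hij 1
    rw [mul_one] at hm
    apply Units.ext
    ext ⟨y, a⟩ ⟨x, b⟩
    show (if y = tv i j hij (D.factorial : ℤ) • x then
      (σ (coc Δ (tv i j hij (D.factorial : ℤ)) x)).val a b else 0) = _
    rw [hCx _ hm x]
    have h1 := (hY x).one_of_small hn hd _ hco (hP x) i j hij
    rw [hYd x i j hij] at h1
    have h2 : σ (coc Δ (tv i j hij (D.factorial : ℤ)) x) = 1 := by
      have h3 : σ (coc Δ (tv i j hij ((D.factorial : ℤ) * 1)) x) = 1 := h1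
      rwa [mul_one] at h3
    rw [h2, Units.val_one, Units.val_one, Matrix.one_apply, Matrix.one_apply]
    by_cases hyx : y = x
    · subst hyx
      simp
    · simp [hyx]
  have hr := card_range_le hn Ind D.factorial (Nat.factorial_ne_zero _) (by
    intro i j hij
    rw [← map_pow, ← zpow_natCast, ← tv_mul_zpow, one_mul]
    exact hone i j hij)
  obtain ⟨F, hF⟩ := exists_inj Δ σ
  have hfi : Finite Ind.range := hr.1
  exact ⟨Finite.of_injective F hF, (Nat.card_le_card_of_injective F hF).trans hr.2⟩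

end slsub

end Pool.Agent.L5helper41.GR
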