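import Pool.Agent.L5helper41.GR.Small
import Mathlib

/-!
Representations of dimension smaller than `n` of subgroups of finite index in groups of the genus
of `SL(n, ℤ)`: bounded order.
-/

namespace Pool.Agent.L5helper41.GR

open Matrix Pool.Agent.Helper460_CSP Module

section tr

variable {n : ℕ} {Λ : Type} [Group Λ] {ι : Type} [Fintype ι] [DecidableEq ι]

/-- the bound in characteristic zero -/
noncomputable def bd0 (n D : ℕ) : ℕ := Nat.card (SpecialLinearGroup (Fin n) (ZMod D.factorial))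

lemma bd0_pos (n D : ℕ) : 0 < bd0 n D := by
  unfold bd0
  have : NeZero D.factorial := ⟨Nat.factorial_ne_zero _⟩
  exact Nat.card_pos

/-- a finite image of a subgroup of finite index comes from a subgroup of the same index of
`SL(n, ℤ)` -/
lemma exists_sub (hq : FQ n Λ) (Γ : Subgroup Λ) (hΓ : Γ.index ≠ 0) {G : Type} [Group G]
    (ψ : Γ →* G) (hfin : Finite ψ.range) :
    ∃ (Δ : Subgroup (SpecialLinearGroup (Fin n) ℤ)) (σ : Δ →* G), Δ.index = Γ.index ∧
      σ.range = ψ.range := by
  classical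
  have hΓf : Γ.FiniteIndex := ⟨hΓ⟩
  let K1 : Subgroup Λ := ψ.ker.map Γ.subtype
  have hK1 : K1.index ≠ 0 := by
    have h1 : K1.index = ψ.ker.index * Γ.index := by
      rw [Subgroup.index_map_subtype]
    rw [h1]
    refine mul_ne_zero ?_ hΓ
    rw [Subgroup.index_ker]
    exact Nat.card_pos.ne'
  have hK1f : K1.FiniteIndex := ⟨hK1⟩
  let N : Subgroup Λ := K1.normalCore
  have hN : N.FiniteIndex := inferInstance
  have hNK : N ≤ K1 := K1.normalCore_le
  have hKΓ : K1 ≤ Γ := by
    rintro _ ⟨x, _, rfl⟩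
    exact x.2
  have hfinQ : Finite (Λ ⧸ N) := inferInstance
  let mk := QuotientGroup.mk' N
  have hmk : Function.Surjective mk := QuotientGroup.mk'_surjective N
  obtain ⟨f, hf⟩ := hq (Λ ⧸ N) ⟨mk, hmk⟩
  let H := Γ.map mk
  let π : Γ →* H := mk.subgroupMap Γ
  have hπ : Function.Surjective π := mk.subgroupMap_surjective Γ
  have hker : π.ker ≤ ψ.ker := by
    intro x hx
    have h1 : mk (x : Λ) = 1 := congrArg Subtype.val (MonoidHom.mem_ker.1 hx)
    have h2 : (x : Λ) ∈ N := by
      rwa [← MonoidHom.mem_ker, QuotientGroup.ker_mk'] at h1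
    obtain ⟨y, hy, hyx⟩ := hNK h2
    have h3 : y = x := Subtype.ext hyx
    rwa [← h3]
  let σ1 : H →* G := (MonoidHom.liftOfSurjective π hπ) ⟨ψ, hker⟩
  have hσ1 : ∀ x, σ1 (π x) = ψ x := fun x => MonoidHom.liftOfRightInverse_comp_apply π _ _ _ x
  refine ⟨H.comap f, σ1.comp (f.subgroupComap H), ?_, ?_⟩
  · rw [Subgroup.index_comap_of_surjective _ hf]
    apply Subgroup.index_map_eq _ hmk
    rw [QuotientGroup.ker_mk']
    exact hNK.trans hKΓ
  · ext g
    constructor
    · rintro ⟨x, rfl⟩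
      obtain ⟨y, hy⟩ := hπ (f.subgroupComap H x)
      refine ⟨y, ?_⟩
      rw [MonoidHom.comp_apply, ← hy, hσ1]
    · rintro ⟨y, rfl⟩
      obtain ⟨x, hx⟩ := f.subgroupComap_surjective_of_surjective H hf (π y)
      refine ⟨x, ?_⟩
      rw [MonoidHom.comp_apply, hx, hσ1]

theorem small_field (hn : 3 ≤ n) (hd : Fintype.card ι < n) (hq : FQ n Λ) (Γ : Subgroup Λ)
    (hΓ : Γ.index ≠ 0) {F : Type} [Field F] (p : ℕ) [CharP F p] (hp : p.Prime)
    (hpE : ¬ p ∣ (Γ.index * Fintype.card ι).factorial) (ψ : Γ →* (Matrix ι ι F)ˣ)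
    (hfin : Finite ψ.range) : Nat.card ψ.range ≤ bd0 n (Γ.index * Fintype.card ι) := by
  by_cases hd0 : Fintype.card ι = 0
  · have : IsEmpty ι := Fintype.card_eq_zero_iff.1 hd0
    have h1 : Subsingleton ψ.range := ⟨fun x y => Subtype.ext (Units.ext (Subsingleton.elim _ _))⟩
    have h2 : Nat.card ψ.range ≤ 1 := Finite.card_le_one_iff_subsingleton.2 h1
    exact h2.trans (bd0_pos _ _)
  · let K := AlgebraicClosure F
    let U := Units.map ((algebraMap F K).mapMatrix (m := ι)).toMonoidHom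
    have hU : Function.Injective U := units_map_inj (algebraMap F K) (algebraMap F K).injective
    have hcp : CharP K p := charP_of_injective_algebraMap (algebraMap F K).injective p
    obtain ⟨Δ, σ, hΔ, hσ⟩ := exists_sub hq Γ hΓ ψ hfin
    rw [← hσ]
    have h1 := sub_closed (K := K) p hp hn hd hd0 Δ (by rw [hΔ]; exact hΓ)
      (by rw [hΔ]; exact hpE) (U.comp σ)
    rw [hΔ] at h1
    have h2 : Nat.card σ.range ≤ Nat.card (U.comp σ).range := by
      have := h1.1
      refine Nat.card_le_card_of_injective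
        (fun x : σ.range => (⟨U x.1, by
          obtain ⟨y, hy⟩ := x.2
          exact ⟨y, by rw [MonoidHom.comp_apply, hy]⟩⟩ : (U.comp σ).range)) ?_
      intro x y hxy
      exact Subtype.ext (hU (congrArg Subtype.val hxy))
    exact h2.trans h1.2

/-- the bound over a finitely generated domain of characteristic zero -/
theorem small_domain (hn : 3 ≤ n) (hd : Fintype.card ι < n) (hq : FQ n Λ) (Γ : Subgroup Λ)
    (hΓ : Γ.index ≠ 0) {B : Type} [CommRing B] [IsDomain B] [CharZero B]
    [Algebra.FiniteType ℤ B] (ψ : Γ →* (Matrix ι ι B)ˣ) :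
    Finite ψ.range ∧ Nat.card ψ.range ≤ bd0 n (Γ.index * Fintype.card ι) := by
  classical
  have key : ∀ T : Finset (Matrix ι ι B)ˣ, (T : Set (Matrix ι ι B)ˣ) ⊆ (ψ.range : Set _) →
      T.card ≤ bd0 n (Γ.index * Fintype.card ι) := by
    intro T hT
    have hex : ∀ x y : (Matrix ι ι B)ˣ, ∃ e : B, e ≠ 0 ∧ (x ≠ y → ∃ a b, e = x.val a b - y.val a b) := by
      intro x y
      by_cases h : x = y
      · exact ⟨1, one_ne_zero, fun h' => absurd h h'⟩
      · have h1 : ∃ a b, x.val a b ≠ y.val a b := by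
          by_contra hcon
          push Not at hcon
          exact h (Units.ext (Matrix.ext hcon))
        obtain ⟨a, b, hab⟩ := h1
        exact ⟨x.val a b - y.val a b, sub_ne_zero.2 hab, fun _ => ⟨a, b, rfl⟩⟩
    choose e he0 he using hex
    have hE0 : (((Γ.index * Fintype.card ι).factorial : ℕ) : B) ≠ 0 :=
      Nat.cast_ne_zero.2 (Nat.factorial_ne_zero _)
    obtain ⟨m, hm, hmP⟩ := exists_avoid B
      ((((Γ.index * Fintype.card ι).factorial : ℕ) : B) * ∏ x ∈ T, ∏ y ∈ T, e x y)
      (mul_ne_zero hE0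
        (Finset.prod_ne_zero_iff.2 fun x _ => Finset.prod_ne_zero_iff.2 fun y _ => he0 x y))
    let _ : Field (B ⧸ m) := Ideal.Quotient.field m
    have hfin : Finite (B ⧸ m) := residue_finite B m
    obtain ⟨p, hcp⟩ := CharP.exists (B ⧸ m)
    have hp : p.Prime := by
      rcases CharP.char_is_prime_or_zero (B ⧸ m) p with h | h
      · exact h
      · subst h
        have : CharZero (B ⧸ m) := CharP.charP_to_charZero _
        exact absurd hfin (by
          rw [not_finite_iff_infinite]
          exact Infinite.of_injective (Nat.cast : ℕ → B ⧸ m) Nat.cast_injective)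
    have hpE : ¬ p ∣ (Γ.index * Fintype.card ι).factorial := by
      intro hdiv
      apply hmP
      apply Ideal.mul_mem_right
      rw [← Ideal.Quotient.eq_zero_iff_mem, map_natCast]
      exact (CharP.cast_eq_zero_iff (B ⧸ m) p _).2 hdiv
    have hb := small_field hn hd hq Γ hΓ p hp hpE ((red (Ideal.Quotient.mk m)).comp ψ) inferInstance
    have hinj : Set.InjOn (red (ι := ι) (Ideal.Quotient.mk m)) (T : Set (Matrix ι ι B)ˣ) := by
      intro x hx y hy hxy
      by_contra hne
      obtain ⟨a, b, hab⟩ := he x y hne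
      apply hmP
      apply Ideal.mul_mem_left
      have h1 : e x y ∈ m := by
        rw [hab, ← Ideal.Quotient.eq, ← red_apply, ← red_apply, hxy]
      have h2 : e x y ∣ ∏ x ∈ T, ∏ y ∈ T, e x y :=
        (Finset.dvd_prod_of_mem (e x) hy).trans
          (Finset.dvd_prod_of_mem (fun x => ∏ y ∈ T, e x y) hx)
      exact Ideal.mem_of_dvd m h2 h1
    have h3 : T.card ≤ Nat.card ((red (Ideal.Quotient.mk m)).comp ψ).range := by
      rw [← Finset.card_image_of_injOn hinj]
      have h4 : ((T.image (red (ι := ι) (Ideal.Quotient.mk m)) : Finset _) : Set _) ⊆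
          (((red (Ideal.Quotient.mk m)).comp ψ).range : Set (Matrix ι ι (B ⧸ m))ˣ) := by
        intro z hz
        rw [Finset.coe_image] at hz
        obtain ⟨x, hx, rfl⟩ := hz
        obtain ⟨g, hg⟩ := hT hx
        exact ⟨g, by rw [MonoidHom.comp_apply, hg]⟩
      have h5 := Set.ncard_le_ncard h4 (Set.toFinite _)
      rw [Set.ncard_coe_finset] at h5
      exact h5
    exact h3.trans hb
  have hfin : (ψ.range : Set (Matrix ι ι B)ˣ).Finite := by
    by_contra hcon
    obtain ⟨T, hT, hc⟩ := Set.Infinite.exists_subset_card_eq hcon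
      (bd0 n (Γ.index * Fintype.card ι) + 1)
    have := key T hT
    omega
  refine ⟨hfin.to_subtype, ?_⟩
  have h1 := key hfin.toFinset (by rw [hfin.coe_toFinset])
  rwa [← Set.ncard_eq_toFinset_card _ hfin] at h1

/-- **Part 3**: representations of dimension smaller than `n` in characteristic zero -/
theorem small_charZero (hn : 3 ≤ n) (hd : Fintype.card ι < n) (hfg : Group.FG Λ) (hq : FQ n Λ)
    (Γ : Subgroup Λ) (hΓ : Γ.index ≠ 0) {K : Type} [Field K] [CharZero K]
    (ρ : Γ →* (Matrix ι ι K)ˣ) :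
    Finite ρ.range ∧ Nat.card ρ.range ≤ bd0 n (Γ.index * Fintype.card ι) := by
  have hΓf : Γ.FiniteIndex := ⟨hΓ⟩
  have hΓfg : Group.FG Γ := Subgroup.fg_of_index_ne_zero Γ
  obtain ⟨A, hA, ψ, hψ⟩ := exists_ft hΓfg ρ
  obtain ⟨h1, h1'⟩ := small_domain hn hd hq Γ hΓ ψ
  have h2 : ∀ g h : Γ, ψ g = ψ h → ρ g = ρ h := by
    intro g h hgh
    apply Units.ext
    ext a b
    rw [← hψ, ← hψ, hgh]
  choose r hr using fun x : ρ.range => x.2
  have hinj : Function.Injective (fun x : ρ.range => (⟨ψ (r x), r x, rfl⟩ : ψ.range)) := by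
    intro x y hxy
    have h3 : ψ (r x) = ψ (r y) := congrArg Subtype.val hxy
    apply Subtype.ext
    rw [← hr x, ← hr y]
    exact h2 _ _ h3
  exact ⟨Finite.of_injective _ hinj, (Nat.card_le_card_of_injective _ hinj).trans h1'⟩

end tr

end Pool.Agent.L5helper41.GR
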