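import Pool.Agent.L5helper41.GR.Small2
import Mathlib

/-!
Representations of dimension smaller than `n` of subgroups of finite index, over arbitrary
commutative rings: finite image.
-/

namespace Pool.Agent.L5helper41.GR

open Matrix

section fab

variable {n : ℕ} {Λ : Type} [Group Λ]

/-- homomorphisms of subgroups of finite index to commutative groups have finite image -/
theorem fab (hn : 3 ≤ n) (hfg : Group.FG Λ) (hq : FQ n Λ) (Γ : Subgroup Λ) (hΓ : Γ.index ≠ 0)
    {C : Type} [CommGroup C] (f : Γ →* C) : Finite f.range := by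
  let R := MonoidAlgebra (ZMod 2) C
  let u : C →* Rˣ := (MonoidAlgebra.of (ZMod 2) C).toHomUnits
  let θ : R →* Matrix (Fin 1) (Fin 1) R := (Matrix.scalar (Fin 1)).toMonoidHom
  let ρ : Γ →* (Matrix (Fin 1) (Fin 1) R)ˣ := (Units.map θ).comp (u.comp f)
  have h2 : ((2 : ℕ) : R) = 0 := by
    rw [← map_natCast (algebraMap (ZMod 2) R) 2]
    have : ((2 : ℕ) : ZMod 2) = 0 := ZMod.natCast_self 2
    rw [this, map_zero]
  have h1 : Finite ρ.range := finite_ring_sub hn hfg hq Γ hΓ 2 two_ne_zero h2 ρ
  have h4 : ∀ g, (ρ g).val 0 0 = MonoidAlgebra.of (ZMod 2) C (f g) := by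
    intro g
    show Matrix.scalar (Fin 1) (MonoidAlgebra.of (ZMod 2) C (f g)) 0 0 = _
    simp
  choose r hr using fun x : f.range => x.2
  refine Finite.of_injective (fun x : f.range => (⟨ρ (r x), r x, rfl⟩ : ρ.range)) ?_
  intro x y hxy
  have h5 : ρ (r x) = ρ (r y) := congrArg Subtype.val hxy
  apply Subtype.ext
  rw [← hr x, ← hr y]
  apply MonoidAlgebra.of_injective (R := ZMod 2)
  rw [← h4, ← h4, h5]

/-- the same for subgroups of finite index of subgroups of finite index -/
theorem fab' (hn : 3 ≤ n) (hfg : Group.FG Λ) (hq : FQ n Λ) (Γ : Subgroup Λ) (hΓ : Γ.index ≠ 0)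
    (G : Subgroup Γ) (hG : G.index ≠ 0) {C : Type} [CommGroup C] (f : G →* C) :
    Finite f.range := by
  let G' : Subgroup Λ := G.map Γ.subtype
  let e : G ≃* G' := G.equivMapOfInjective Γ.subtype Γ.subtype_injective
  have hG' : G'.index ≠ 0 := by
    have h1 : G'.index = G.index * Γ.index := Subgroup.index_map_subtype G
    rw [h1]
    exact mul_ne_zero hG hΓ
  have h1 := fab hn hfg hq G' hG' (f.comp e.symm.toMonoidHom)
  have h2 : (f.comp e.symm.toMonoidHom).range = f.range := by
    ext x
    constructor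
    · rintro ⟨y, rfl⟩
      exact ⟨e.symm y, rfl⟩
    · rintro ⟨y, rfl⟩
      exact ⟨e y, by simp⟩
  rwa [h2] at h1

end fab

section small

variable {n : ℕ} {Λ : Type} [Group Λ] {ι : Type} [Fintype ι] [DecidableEq ι]

/-- finiteness over finitely generated rings -/
theorem small_ft (hn : 3 ≤ n) (hd : Fintype.card ι < n) (hfg : Group.FG Λ) (hq : FQ n Λ)
    (Γ : Subgroup Λ) (hΓ : Γ.index ≠ 0) {A : Type} [CommRing A]
    [Algebra.FiniteType ℤ A] (ψ : Γ →* (Matrix ι ι A)ˣ) : Finite ψ.range := by
  have hΓf : Γ.FiniteIndex := ⟨hΓ⟩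
  have hΓfg : Group.FG Γ := Subgroup.fg_of_index_ne_zero Γ
  have hNo : IsNoetherianRing A := Algebra.FiniteType.isNoetherianRing ℤ A
  -- the kernels modulo ideals
  have hmem : ∀ (J : Ideal A) (g : Γ), g ∈ ((red (Ideal.Quotient.mk J)).comp ψ).ker ↔
      ∀ a b, ((ψ g).val - 1) a b ∈ J := by
    intro J g
    rw [MonoidHom.mem_ker, MonoidHom.comp_apply, red_eq_one_iff]
  have hprime : ∀ P : Ideal A, P ∈ minimalPrimes A →
      ((red (Ideal.Quotient.mk P)).comp ψ).ker.FiniteIndex := by
    intro P hP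
    have hPp : P.IsPrime := Ideal.IsMinimalPrime.isPrime hP
    have hdom : IsDomain (A ⧸ P) := inferInstance
    have hftP : @Algebra.FiniteType ℤ (A ⧸ P) _ _ (Ring.toIntAlgebra (A ⧸ P)) :=
      finiteType_quot A P
    obtain ⟨q, hqc⟩ := CharP.exists (A ⧸ P)
    have hfin : Finite ((red (Ideal.Quotient.mk P)).comp ψ).range := by
      by_cases hq0 : q = 0
      · subst hq0
        have : CharZero (A ⧸ P) := CharP.charP_to_charZero _
        exact (small_domain hn hd hq Γ hΓ ((red (Ideal.Quotient.mk P)).comp ψ)).1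
      · exact finite_ring_sub hn hfg hq Γ hΓ q hq0 (CharP.cast_eq_zero (A ⧸ P) q) _
    refine ⟨?_⟩
    rw [Subgroup.index_ker]
    exact Nat.card_pos.ne'
  have hbase : ((red (Ideal.Quotient.mk (nilradical A))).comp ψ).ker.FiniteIndex := by
    have hfinP : Finite (minimalPrimes A) := (minimalPrimes.finite_of_isNoetherianRing A).to_subtype
    have h1 : (⨅ P : minimalPrimes A, ((red (Ideal.Quotient.mk P.1)).comp ψ).ker).FiniteIndex :=
      Subgroup.finiteIndex_iInf fun P => hprime P.1 P.2
    refine Subgroup.finiteIndex_of_le (H := ⨅ P : minimalPrimes A,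
      ((red (Ideal.Quotient.mk P.1)).comp ψ).ker) ?_
    intro g hg
    rw [hmem]
    intro a b
    have h2 : nilradical A = sInf (minimalPrimes A) := by
      rw [nilradical, ← Ideal.sInf_minimalPrimes]; rfl
    rw [h2, Ideal.mem_sInf]
    intro P hP
    rw [Subgroup.mem_iInf] at hg
    exact (hmem P g).1 (hg ⟨P, hP⟩) a b
  have hstep : ∀ k : ℕ, ((red (Ideal.Quotient.mk (nilradical A ^ (k + 1)))).comp ψ).ker.FiniteIndex := by
    intro k
    induction k with
    | zero => rw [zero_add, pow_one]; exact hbase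
    | succ k ih =>
      set G := ((red (Ideal.Quotient.mk (nilradical A ^ (k + 1)))).comp ψ).ker with hG
      set φ := (red (ι := ι) (Ideal.Quotient.mk (nilradical A ^ (k + 1 + 1)))).comp ψ with hφ
      let θ : G →* (Matrix ι ι (A ⧸ nilradical A ^ (k + 1 + 1)))ˣ := φ.comp G.subtype
      have hfr : Finite θ.range := by
        have hcomm : ∀ x y : θ.range, x * y = y * x := by
          rintro ⟨_, g, rfl⟩ ⟨_, h, rfl⟩
          apply Subtype.ext
          exact red_commute (nilradical A) (k + 1) (by omega) _ _ ((hmem _ _).1 g.2)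
            ((hmem _ _).1 h.2)
        let _ : CommGroup θ.range := { (inferInstance : Group θ.range) with mul_comm := hcomm }
        have h1 : Finite θ.rangeRestrict.range := fab' hn hfg hq Γ hΓ G ih.index_ne_zero
          (C := θ.range) θ.rangeRestrict
        have h2 : Function.Injective (fun x : θ.range => (⟨x, by
            obtain ⟨g, hg⟩ := x.2
            exact ⟨g, Subtype.ext hg⟩⟩ : θ.rangeRestrict.range)) := by
          intro x y hxy
          exact congrArg Subtype.val hxy
        exact Finite.of_injective _ h2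
      have h1 : φ.ker.relIndex G ≠ 0 := by
        have h2 : φ.ker.relIndex G = θ.ker.index := by
          rw [Subgroup.relIndex]
          congr 1
        rw [h2, Subgroup.index_ker]
        exact Nat.card_pos.ne'
      have h3 : (φ.ker ⊓ G).index ≠ 0 := by
        rw [← Subgroup.relIndex_mul_index (inf_le_right : φ.ker ⊓ G ≤ G),
          Subgroup.inf_relIndex_right]
        exact Nat.mul_ne_zero h1 ih.index_ne_zero
      have h4 : (φ.ker ⊓ G).FiniteIndex := ⟨h3⟩
      exact Subgroup.finiteIndex_of_le (H := φ.ker ⊓ G) inf_le_left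
  obtain ⟨s, hs⟩ := IsNoetherianRing.isNilpotent_nilradical A
  have h5 : ψ.ker.FiniteIndex := by
    have := hstep s
    refine Subgroup.finiteIndex_of_le
      (H := ((red (Ideal.Quotient.mk (nilradical A ^ (s + 1)))).comp ψ).ker) ?_
    intro g hg
    rw [hmem] at hg
    rw [MonoidHom.mem_ker]
    apply Units.ext
    ext a b
    have h6 := hg a b
    rw [pow_succ, hs, zero_mul, Ideal.zero_eq_bot, Ideal.mem_bot, Matrix.sub_apply, sub_eq_zero] at h6
    exact h6
  have h7 := h5.index_ne_zero
  rw [Subgroup.index_ker] at h7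
  exact Nat.finite_of_card_ne_zero h7

/-- **Part 3** over all commutative rings -/
theorem small_ring (hn : 3 ≤ n) (hd : Fintype.card ι < n) (hfg : Group.FG Λ) (hq : FQ n Λ)
    (Γ : Subgroup Λ) (hΓ : Γ.index ≠ 0) {R : Type} [CommRing R] (ρ : Γ →* (Matrix ι ι R)ˣ) :
    Finite ρ.range := by
  have hΓf : Γ.FiniteIndex := ⟨hΓ⟩
  have hΓfg : Group.FG Γ := Subgroup.fg_of_index_ne_zero Γ
  obtain ⟨A, hA, ψ, hψ⟩ := exists_ft hΓfg ρ
  have h1 := small_ft hn hd hfg hq Γ hΓ ψ
  have h2 : ∀ g h : Γ, ψ g = ψ h → ρ g = ρ h := by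
    intro g h hgh
    apply Units.ext
    ext a b
    rw [← hψ, ← hψ, hgh]
  choose r hr using fun x : ρ.range => x.2
  have hinj : Function.Injective (fun x : ρ.range => (⟨ψ (r x), r x, rfl⟩ : ψ.range)) := by
    intro x y hxy
    have h3 : ψ (r x) = ψ (r y) := congrArg Subtype.val hxy
    apply Subtype.ext
    rw [← hr x, ← hr y]
    exact h2 _ _ h3
  exact Finite.of_injective _ hinj

end small

end Pool.Agent.L5helper41.GR
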